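import Mathlib

/-! # Automorphisms of the affine plane -/

set_option autoImplicit false

namespace Pool.Agent.NegK.AP

universe u

open MvPolynomial

/-- The automorphisms of the polynomial ring in two variables. -/
abbrev Au (K : Type u) [Field K] : Type u := MvPolynomial (Fin 2) K ≃ₐ[K] MvPolynomial (Fin 2) K

variable {K : Type u} [Field K]

/-! ## Degrees -/

theorem coeff_lin (a b c : K) :
    coeff (Finsupp.single 0 1) (C a * X 0 + C b * X 1 + C c : MvPolynomial (Fin 2) K) = a ∧
    coeff (Finsupp.single 1 1) (C a * X 0 + C b * X 1 + C c : MvPolynomial (Fin 2) K) = b ∧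
    coeff 0 (C a * X 0 + C b * X 1 + C c : MvPolynomial (Fin 2) K) = c := by
  have h0 : (0 : Fin 2 →₀ ℕ) ≠ Finsupp.single 0 1 := fun h => by
    simpa using DFunLike.congr_fun h 0
  have h1 : (0 : Fin 2 →₀ ℕ) ≠ Finsupp.single 1 1 := fun h => by
    simpa using DFunLike.congr_fun h 1
  have h2 : (Finsupp.single 0 1 : Fin 2 →₀ ℕ) ≠ Finsupp.single 1 1 := fun h => by
    simpa using DFunLike.congr_fun h 0
  refine ⟨?_, ?_, ?_⟩
  · simp only [coeff_add, coeff_C_mul, coeff_X, coeff_C, if_neg h2.symm, if_neg h0, ↓reduceIte]
    ring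
  · simp only [coeff_add, coeff_C_mul, coeff_X, coeff_C, if_neg h2, if_neg h1, ↓reduceIte]
    ring
  · simp only [coeff_add, coeff_C_mul, coeff_X, coeff_C, if_neg h0.symm, if_neg h1.symm,
      ↓reduceIte]
    ring

/-- Polynomials of degree at most one. -/
theorem exists_lin {p : MvPolynomial (Fin 2) K} (hp : p.totalDegree ≤ 1) :
    p = C (coeff (Finsupp.single 0 1) p) * X 0 + C (coeff (Finsupp.single 1 1) p) * X 1 +
      C (coeff 0 p) := by
  refine MvPolynomial.ext _ _ fun m => ?_
  by_cases hm : m.sum (fun _ e => e) ≤ 1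
  · have h1 : m 0 + m 1 ≤ 1 := by
      rw [Finsupp.sum_fintype _ _ (fun _ => rfl)] at hm
      simpa using hm
    have h2 : m = 0 ∨ m = Finsupp.single 0 1 ∨ m = Finsupp.single 1 1 := by
      rcases Nat.eq_zero_or_pos (m 0) with h3 | h3
      · rcases Nat.eq_zero_or_pos (m 1) with h4 | h4
        · left
          ext i
          fin_cases i
          · exact h3
          · exact h4
        · right; right
          ext i
          fin_cases i
          · simpa using h3
          · have : m 1 = 1 := by omega
            simpa using this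
      · right; left
        ext i
        fin_cases i
        · have : m 0 = 1 := by omega
          simpa using this
        · have : m 1 = 0 := by omega
          simpa using this
    obtain ⟨e0, e1, e2⟩ := coeff_lin (coeff (Finsupp.single 0 1) p)
      (coeff (Finsupp.single 1 1) p) (coeff 0 p)
    rcases h2 with rfl | rfl | rfl
    · exact e2.symm
    · exact e0.symm
    · exact e1.symm
  · have h1 : ∀ q : MvPolynomial (Fin 2) K, q.totalDegree ≤ 1 → coeff m q = 0 := by
      intro q hq
      by_contra h
      exact hm (le_trans (le_totalDegree (mem_support_iff.2 h)) hq)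
    rw [h1 p hp, h1]
    refine le_trans (totalDegree_add _ _) (max_le (le_trans (totalDegree_add _ _)
      (max_le ?_ ?_)) ?_)
    · refine le_trans (totalDegree_mul _ _) ?_
      rw [totalDegree_C, totalDegree_X]
    · refine le_trans (totalDegree_mul _ _) ?_
      rw [totalDegree_C, totalDegree_X]
    · rw [totalDegree_C]
      exact Nat.zero_le _

/-- The degree of a linear combination. -/
theorem deg_comb_le (a b c : K) (f g : MvPolynomial (Fin 2) K) :
    (C a * f + C b * g + C c).totalDegree ≤ max f.totalDegree g.totalDegree := by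
  refine le_trans (totalDegree_add _ _) (max_le (le_trans (totalDegree_add _ _)
    (max_le_max ?_ ?_)) ?_)
  · refine le_trans (totalDegree_mul _ _) ?_
    rw [totalDegree_C, zero_add]
  · refine le_trans (totalDegree_mul _ _) ?_
    rw [totalDegree_C, zero_add]
  · rw [totalDegree_C]
    exact Nat.zero_le _

theorem deg_C_mul {a : K} (ha : a ≠ 0) (f : MvPolynomial (Fin 2) K) :
    (C a * f).totalDegree = f.totalDegree := by
  by_cases hf : f = 0
  · rw [hf, mul_zero]
  · rw [totalDegree_mul_of_isDomain (by simpa using ha) hf, totalDegree_C, zero_add]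

/-- If the first polynomial has the larger degree. -/
theorem deg_comb_eq {a : K} (ha : a ≠ 0) (b c : K) {f g : MvPolynomial (Fin 2) K}
    (h : g.totalDegree < f.totalDegree) :
    (C a * f + C b * g + C c).totalDegree = f.totalDegree := by
  rw [add_assoc, totalDegree_add_eq_left_of_totalDegree_lt, deg_C_mul ha]
  rw [deg_C_mul ha]
  refine lt_of_le_of_lt (totalDegree_add _ _) (max_lt (lt_of_le_of_lt (totalDegree_mul _ _) ?_) ?_)
  · rw [totalDegree_C, zero_add]
    exact h
  · rw [totalDegree_C]
    exact lt_of_le_of_lt (Nat.zero_le _) h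

theorem deg_aeval_le (h : MvPolynomial (Fin 2) K) (P : Polynomial K) :
    (Polynomial.aeval h P).totalDegree ≤ P.natDegree * h.totalDegree := by
  rw [Polynomial.aeval_eq_sum_range]
  refine totalDegree_finsetSum_le fun i hi => ?_
  refine le_trans (totalDegree_smul_le _ _) (le_trans (totalDegree_pow _ _) ?_)
  exact Nat.mul_le_mul_right _ (Nat.lt_succ_iff.1 (Finset.mem_range.1 hi))

theorem deg_pow (f : MvPolynomial (Fin 2) K) (n : ℕ) :
    (f ^ n).totalDegree = n * f.totalDegree := by
  by_cases hf : f = 0
  · subst hf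
    rcases Nat.eq_zero_or_pos n with rfl | hn
    · simp
    · rw [zero_pow hn.ne']
      simp
  · induction n with
    | zero => simp
    | succ n ih =>
      rw [pow_succ, totalDegree_mul_of_isDomain (pow_ne_zero n hf) hf, ih]
      ring

/-- The degree of a composition. -/
theorem deg_aeval (h : MvPolynomial (Fin 2) K) (hh : 1 ≤ h.totalDegree) (P : Polynomial K) :
    (Polynomial.aeval h P).totalDegree = P.natDegree * h.totalDegree := by
  rcases Nat.eq_zero_or_pos P.natDegree with h0 | h0
  · rw [h0, zero_mul, Polynomial.eq_C_of_natDegree_eq_zero h0, Polynomial.aeval_C]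
    exact totalDegree_C _
  · have hP : P ≠ 0 := by
      rintro rfl
      simp at h0
    have hl : P.leadingCoeff ≠ 0 := Polynomial.leadingCoeff_ne_zero.2 hP
    have e : Polynomial.aeval h P = Polynomial.aeval h P.eraseLead +
        C P.leadingCoeff * h ^ P.natDegree := by
      conv_lhs => rw [← P.eraseLead_add_monomial_natDegree_leadingCoeff]
      rw [map_add, Polynomial.aeval_monomial]
      rfl
    have e2 : (C P.leadingCoeff * h ^ P.natDegree).totalDegree = P.natDegree * h.totalDegree := by
      rw [deg_C_mul hl, deg_pow]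
    rw [e, totalDegree_add_eq_right_of_totalDegree_lt, e2]
    rw [e2]
    refine lt_of_le_of_lt (deg_aeval_le h _) ?_
    have h1 : P.eraseLead.natDegree ≤ P.natDegree - 1 := Polynomial.eraseLead_natDegree_le P
    have h2 : P.eraseLead.natDegree < P.natDegree := by omega
    exact Nat.mul_lt_mul_of_pos_right h2 (by omega)

theorem coeff_aeval_X (P : Polynomial K) :
    coeff (Finsupp.single 0 1) (Polynomial.aeval (X 1 : MvPolynomial (Fin 2) K) P) = 0 := by
  rw [Polynomial.aeval_eq_sum_range, coeff_sum]
  refine Finset.sum_eq_zero fun i _ => ?_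
  rw [coeff_smul, coeff_X_pow, if_neg, smul_zero]
  intro h
  have := DFunLike.congr_fun h 0
  simp at this

/-! ## Automorphisms -/

theorem au_ext {φ ψ : Au K} (h0 : φ (X 0) = ψ (X 0)) (h1 : φ (X 1) = ψ (X 1)) : φ = ψ := by
  have h : (φ : MvPolynomial (Fin 2) K →ₐ[K] MvPolynomial (Fin 2) K) =
      (ψ : MvPolynomial (Fin 2) K →ₐ[K] MvPolynomial (Fin 2) K) := by
    refine algHom_ext fun i => ?_
    fin_cases i
    · exact h0
    · exact h1
  exact AlgEquiv.coe_toAlgHom_injective h

theorem au_C (φ : Au K) (c : K) : φ (C c) = C c := φ.commutes c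

theorem au_lin (φ : Au K) (a b c : K) (f g : MvPolynomial (Fin 2) K) :
    φ (C a * f + C b * g + C c) = C a * φ f + C b * φ g + C c := by
  rw [map_add, map_add, map_mul, map_mul, au_C, au_C, au_C]

theorem au_aeval (φ : Au K) (f : MvPolynomial (Fin 2) K) (P : Polynomial K) :
    φ (Polynomial.aeval f P) = Polynomial.aeval (φ f) P :=
  (Polynomial.aeval_algHom_apply (φ : MvPolynomial (Fin 2) K →ₐ[K] MvPolynomial (Fin 2) K) f P).symm

/-- The components of an automorphism are not constant. -/
theorem one_le_deg (φ : Au K) (i : Fin 2) : 1 ≤ (φ (X i)).totalDegree := by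
  rw [Nat.one_le_iff_ne_zero]
  intro h
  rw [totalDegree_eq_zero_iff_eq_C] at h
  rw [← au_C φ] at h
  have h1 := congrArg totalDegree (φ.injective h)
  rw [totalDegree_X, totalDegree_C] at h1
  exact one_ne_zero h1

/-- If `φ x = x + y` and `φ y = y` then `φⁿ x = x + n y`. -/
theorem pow_apply (φ : Au K) {x y : MvPolynomial (Fin 2) K} (hx : φ x = x + y) (hy : φ y = y)
    (n : ℕ) : (φ ^ n) x = x + n • y := by
  have hy' : ∀ n : ℕ, (φ ^ n) y = y := by
    intro n
    induction n with
    | zero => rfl
    | succ n ih => rw [pow_succ, AlgEquiv.mul_apply, hy, ih]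
  induction n with
  | zero => simp
  | succ n ih => rw [pow_succ, AlgEquiv.mul_apply, hx, map_add, ih, hy', succ_nsmul, add_assoc]

end Pool.Agent.NegK.AP
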