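import Mathlib

/-! # The coset graph of two subgroups

The coset graph of two subgroups `A`, `B` of `G` is a tree if `G` is generated by `A` and `B` and
there is a height function such that every vertex has at most one neighbour which is not higher. -/

set_option autoImplicit false

namespace Pool.Agent.NegK.AP

universe u

/-- A graph with a height function such that every vertex has at most one neighbour which is not
higher is acyclic. -/
theorem acyclic_of_height {V : Type u} (T : SimpleGraph V) (h : V → ℕ)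
    (hl : ∀ v w w' : V, T.Adj v w → T.Adj v w' → h w ≤ h v → h w' ≤ h v → w = w') :
    T.IsAcyclic := by
  classical
  intro v c hc
  obtain ⟨u, hu', hmax'⟩ := Finset.exists_max_image c.support.toFinset h
    ⟨v, List.mem_toFinset.2 c.start_mem_support⟩
  have hu : u ∈ c.support := List.mem_toFinset.1 hu'
  have hmax : ∀ x ∈ c.support, h x ≤ h u := fun x hx => hmax' x (List.mem_toFinset.2 hx)
  have hc' : (c.rotate u hu).IsCycle := hc.rotate hu
  have hnn : ¬ (c.rotate u hu).Nil := hc'.not_nil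
  have h1 : T.Adj u (c.rotate u hu).snd := (c.rotate u hu).adj_snd hnn
  have h2 : T.Adj u (c.rotate u hu).penultimate := ((c.rotate u hu).adj_penultimate hnn).symm
  have h3 : (c.rotate u hu).snd ∈ c.support := by
    rw [← SimpleGraph.Walk.mem_support_rotate_iff c u hu]
    exact SimpleGraph.Walk.getVert_mem_support _ _
  have h4 : (c.rotate u hu).penultimate ∈ c.support := by
    rw [← SimpleGraph.Walk.mem_support_rotate_iff c u hu]
    exact SimpleGraph.Walk.getVert_mem_support _ _
  exact hc'.snd_ne_penultimate (hl u _ _ h1 h2 (hmax _ h3) (hmax _ h4))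

variable {G : Type u} [Group G] (A B : Subgroup G)

/-- The coset graph. -/
def cosetGraph : SimpleGraph ((G ⧸ A) ⊕ (G ⧸ B)) where
  Adj v w := ∃ g : G, (v = Sum.inl (g : G ⧸ A) ∧ w = Sum.inr (g : G ⧸ B)) ∨
    (v = Sum.inr (g : G ⧸ B) ∧ w = Sum.inl (g : G ⧸ A))
  symm := ⟨fun v w ⟨g, h⟩ => ⟨g, h.symm.imp (fun h => ⟨h.2, h.1⟩) fun h => ⟨h.2, h.1⟩⟩⟩
  loopless := ⟨fun v ⟨g, h⟩ => by
    rcases h with ⟨h1, h2⟩ | ⟨h1, h2⟩
    · exact Sum.inl_ne_inr (h1.symm.trans h2)
    · exact Sum.inr_ne_inl (h1.symm.trans h2)⟩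

variable {A B}

theorem adj_lr {q : G ⧸ A} {r : G ⧸ B} (h : (cosetGraph A B).Adj (Sum.inl q) (Sum.inr r)) :
    ∃ g : G, q = (g : G ⧸ A) ∧ r = (g : G ⧸ B) := by
  obtain ⟨g, h | h⟩ := h
  · exact ⟨g, Sum.inl_injective h.1, Sum.inr_injective h.2⟩
  · exact absurd h.1 Sum.inl_ne_inr

theorem adj_cases {v w : (G ⧸ A) ⊕ (G ⧸ B)} (h : (cosetGraph A B).Adj v w) :
    (∃ q r, v = Sum.inl q ∧ w = Sum.inr r) ∨ (∃ q r, v = Sum.inr q ∧ w = Sum.inl r) := by
  obtain ⟨g, h | h⟩ := h
  · exact Or.inl ⟨_, _, h.1, h.2⟩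
  · exact Or.inr ⟨_, _, h.1, h.2⟩

/-- The coset graph is connected if the group is generated by the two subgroups. -/
theorem cosetGraph_connected (hgen : Subgroup.closure ((A : Set G) ∪ B) = ⊤) :
    (cosetGraph A B).Connected := by
  have hst : ∀ g : G, (cosetGraph A B).Reachable (Sum.inl (g : G ⧸ A)) (Sum.inr (g : G ⧸ B)) :=
    fun g => SimpleGraph.Adj.reachable ⟨g, Or.inl ⟨rfl, rfl⟩⟩
  have key : ∀ g : G, (cosetGraph A B).Reachable (Sum.inl ((1 : G) : G ⧸ A))
      (Sum.inl (g : G ⧸ A)) := by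
    intro g
    have hg : g ∈ Subgroup.closure ((A : Set G) ∪ B) := by
      rw [hgen]
      exact Subgroup.mem_top g
    induction hg using Subgroup.closure_induction_right with
    | one => exact SimpleGraph.Reachable.refl _
    | mul_right x hx y hy ih =>
      rcases hy with hy | hy
      · have h1 : ((x * y : G) : G ⧸ A) = (x : G ⧸ A) := by
          rw [QuotientGroup.eq]
          simpa using A.inv_mem hy
        rw [h1]
        exact ih
      · have h1 : ((x * y : G) : G ⧸ B) = (x : G ⧸ B) := by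
          rw [QuotientGroup.eq]
          simpa using B.inv_mem hy
        have h2 := hst (x * y)
        rw [h1] at h2
        exact (ih.trans (hst x)).trans h2.symm
    | mul_inv_cancel x hx y hy ih =>
      rcases hy with hy | hy
      · have h1 : ((x * y⁻¹ : G) : G ⧸ A) = (x : G ⧸ A) := by
          rw [QuotientGroup.eq]
          simpa using hy
        rw [h1]
        exact ih
      · have h1 : ((x * y⁻¹ : G) : G ⧸ B) = (x : G ⧸ B) := by
          rw [QuotientGroup.eq]
          simpa using hy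
        have h2 := hst (x * y⁻¹)
        rw [h1] at h2
        exact (ih.trans (hst x)).trans h2.symm
  have key' : ∀ v, (cosetGraph A B).Reachable (Sum.inl ((1 : G) : G ⧸ A)) v := by
    rintro (q | q)
    · induction q using QuotientGroup.induction_on with
      | H g => exact key g
    · induction q using QuotientGroup.induction_on with
      | H g => exact (key g).trans (hst g)
  have : Nonempty ((G ⧸ A) ⊕ (G ⧸ B)) := ⟨Sum.inl ((1 : G) : G ⧸ A)⟩
  exact ⟨fun v w => (key' v).symm.trans (key' w)⟩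

/-- The coset graph is acyclic if there are heights of the elements as follows. -/
theorem cosetGraph_acyclic (a b : G → ℕ) (ha : ∀ g, ∀ x ∈ A, a (g * x) = a g)
    (hb : ∀ g, ∀ x ∈ B, b (g * x) = b g)
    (h1 : ∀ g, ∀ x ∈ A, b g < a g → b (g * x) < a g → x ∈ B)
    (h2 : ∀ g, ∀ x ∈ B, a g ≤ b g → a (g * x) ≤ b g → x ∈ A) :
    (cosetGraph A B).IsAcyclic := by
  have ha' : ∀ g g' : G, (g : G ⧸ A) = g' → a g = a g' := by
    intro g g' h
    rw [QuotientGroup.eq] at h
    rw [← ha g _ h, mul_inv_cancel_left]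
  have hb' : ∀ g g' : G, (g : G ⧸ B) = g' → b g = b g' := by
    intro g g' h
    rw [QuotientGroup.eq] at h
    rw [← hb g _ h, mul_inv_cancel_left]
  let hgt : (G ⧸ A) ⊕ (G ⧸ B) → ℕ := Sum.elim (fun q => 2 * a q.out) fun q => 2 * b q.out + 1
  have hl : ∀ g : G, hgt (Sum.inl (g : G ⧸ A)) = 2 * a g := fun g => by
    show 2 * a (g : G ⧸ A).out = _
    rw [ha' _ g (QuotientGroup.out_eq' _)]
  have hr : ∀ g : G, hgt (Sum.inr (g : G ⧸ B)) = 2 * b g + 1 := fun g => by
    show 2 * b (g : G ⧸ B).out + 1 = _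
    rw [hb' _ g (QuotientGroup.out_eq' _)]
  refine acyclic_of_height _ hgt fun v w w' hw hw' hlw hlw' => ?_
  obtain ⟨g, h | h⟩ := hw
  · obtain ⟨g', h' | h'⟩ := hw'
    · obtain ⟨rfl, rfl⟩ := h
      obtain ⟨h3, rfl⟩ := h'
      have h4 : (g : G ⧸ A) = g' := Sum.inl_injective h3
      have h5 := QuotientGroup.eq.1 h4
      rw [hr, hl] at hlw hlw'
      have h6 := h1 g _ h5 (by omega) (by rw [mul_inv_cancel_left]; omega)
      rw [show (g : G ⧸ B) = g' from QuotientGroup.eq.2 h6]
    · exact absurd (h.1.symm.trans h'.1) Sum.inl_ne_inr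
  · obtain ⟨g', h' | h'⟩ := hw'
    · exact absurd (h.1.symm.trans h'.1) Sum.inr_ne_inl
    · obtain ⟨rfl, rfl⟩ := h
      obtain ⟨h3, rfl⟩ := h'
      have h4 : (g : G ⧸ B) = g' := Sum.inr_injective h3
      have h5 := QuotientGroup.eq.1 h4
      rw [hr, hl] at hlw hlw'
      have h6 := h2 g _ h5 (by omega) (by rw [mul_inv_cancel_left]; omega)
      rw [show (g : G ⧸ A) = g' from QuotientGroup.eq.2 h6]

end Pool.Agent.NegK.AP
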