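import Pool.Agent.Lib.MP_28303a_al.NT.H70.Stab3

/-! # Groups of matrices with integral traces, with torsion

The second case of `H70.stab3` without the hypothesis that the group is torsionfree. -/

set_option autoImplicit false
set_option linter.unusedSectionVars false
set_option linter.unusedVariables false

namespace Pool.Agent.NegK.AP.Emb

universe u v w

open Pool.Agent.NegK.NT
open H22 (Bd)
open H22.G (tr dt adj mulE ext2 tr_eq dt_eq dd dd_comm dt_inv bounded nondeg conj_int tr_one sq_eq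
  eigen tr_comm_uni tr_adj dt_comm)
open H70 (Rig exists_d D D00 D11 tr_D nilp tr_d SR)

/-- A group of matrices with integral traces and determinants `± 1` with a commutator with trace
different from `2`, with entries in a subring with a homomorphism to `ℚ`, is isomorphic to a
subgroup of `GL₂(ℤ)`. -/
theorem embGL {H : Type u} [Group H]
    {K : Type w} [Field K] (A : Subring K) (σ : A →+* ℚ)
    (φ : H →* Matrix.GeneralLinearGroup (Fin 2) K) (hφ : Function.Injective φ)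
    (hA : ∀ h i j, (φ h : Matrix (Fin 2) (Fin 2) K) i j ∈ A)
    (ht : ∀ h, ∃ t : ℤ, Matrix.trace (φ h : Matrix (Fin 2) (Fin 2) K) = t)
    (hd : ∀ h, Matrix.det (φ h : Matrix (Fin 2) (Fin 2) K) = 1 ∨
      Matrix.det (φ h : Matrix (Fin 2) (Fin 2) K) = -1) (x y : H)
    (hxy' : Matrix.trace (φ (x * y * x⁻¹ * y⁻¹) : Matrix (Fin 2) (Fin 2) K) ≠ 2) :
    ∃ ψ : H →* Matrix.GeneralLinearGroup (Fin 2) ℤ, Function.Injective ψ := by
  obtain ⟨Φ, hΦ⟩ : ∃ Φ : H →* Matrix (Fin 2) (Fin 2) K,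
      ∀ h, Φ h = (φ h : Matrix (Fin 2) (Fin 2) K) :=
    ⟨(Units.coeHom _).comp φ, fun _ => rfl⟩
  have hinj : Function.Injective Φ := fun g h hgh => hφ (Units.ext (by rw [← hΦ, ← hΦ, hgh]))
  obtain ⟨Ψ, hΨ⟩ : ∃ Ψ : H →* Matrix (Fin 2) (Fin 2) A, ∀ h i j, (Ψ h i j : K) = Φ h i j := by
    refine ⟨{ toFun := fun h => Matrix.of fun i j => ⟨(φ h : Matrix (Fin 2) (Fin 2) K) i j, hA h i j⟩
              map_one' := ?_
              map_mul' := ?_ }, fun h i j => ?_⟩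
    · have h1 : (φ 1 : Matrix (Fin 2) (Fin 2) K) = 1 := by rw [map_one]; rfl
      have h2 : ∀ i j, (φ 1 : Matrix (Fin 2) (Fin 2) K) i j = (1 : Matrix (Fin 2) (Fin 2) K) i j :=
        fun i j => by rw [h1]
      refine ext2 ?_ ?_ ?_ ?_ <;> apply Subtype.ext <;> rw [Matrix.of_apply]
      · rw [Matrix.one_apply_eq]; exact (h2 0 0).trans (Matrix.one_apply_eq 0)
      · rw [Matrix.one_apply_ne (by decide)]; exact (h2 0 1).trans (Matrix.one_apply_ne (by decide))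
      · rw [Matrix.one_apply_ne (by decide)]; exact (h2 1 0).trans (Matrix.one_apply_ne (by decide))
      · rw [Matrix.one_apply_eq]; exact (h2 1 1).trans (Matrix.one_apply_eq 1)
    · intro g h
      have h1 : (φ (g * h) : Matrix (Fin 2) (Fin 2) K) =
        (φ g : Matrix (Fin 2) (Fin 2) K) * (φ h : Matrix (Fin 2) (Fin 2) K) := by
        rw [map_mul]; rfl
      ext i j
      rw [mulE, Matrix.of_apply, Subring.coe_add, Subring.coe_mul, Subring.coe_mul,
        Matrix.of_apply, Matrix.of_apply, Matrix.of_apply, Matrix.of_apply]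
      show (φ (g * h) : Matrix (Fin 2) (Fin 2) K) i j = _
      rw [h1, mulE]
    · rw [hΦ]
      rfl
  obtain ⟨ρ, hρ⟩ : ∃ ρ : H →* Matrix (Fin 2) (Fin 2) ℚ, ∀ h i j, ρ h i j = σ (Ψ h i j) :=
    ⟨((σ.mapMatrix : Matrix (Fin 2) (Fin 2) A →+* Matrix (Fin 2) (Fin 2) ℚ) : _ →* _).comp Ψ,
      fun _ _ _ => rfl⟩
  have trA : ∀ h, ((tr (Ψ h) : A) : K) = tr (Φ h) := fun h => by
    rw [tr, tr, Subring.coe_add, hΨ, hΨ]
  have trQ : ∀ h, tr (ρ h) = σ (tr (Ψ h)) := fun h => by rw [tr, tr, map_add, hρ, hρ]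
  have dtA : ∀ h, ((dt (Ψ h) : A) : K) = dt (Φ h) := fun h => by
    rw [dt, dt, AddSubgroupClass.coe_sub, Subring.coe_mul, Subring.coe_mul, hΨ, hΨ, hΨ, hΨ]
  have dtQ : ∀ h, dt (ρ h) = σ (dt (Ψ h)) := fun h => by
    rw [dt, dt, map_sub, map_mul, map_mul, hρ, hρ, hρ, hρ]
  have htK : ∀ h, ∃ t : ℤ, tr (Φ h) = t := fun h => by
    obtain ⟨t, h1⟩ := ht h
    exact ⟨t, by rw [← h1, ← hΦ, tr_eq]⟩
  have hdK : ∀ h, dt (Φ h) = 1 ∨ dt (Φ h) = -1 := fun h => by
    have := hd h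
    rw [← hΦ, dt_eq] at this
    exact this
  have iK : ∀ (a : A) (t : ℤ), (a : K) = t → a = t := fun a t h => by
    apply Subtype.ext
    rw [h]
    exact (map_intCast A.subtype t).symm
  have htA : ∀ h, ∃ t : ℤ, tr (Ψ h) = t := fun h => by
    obtain ⟨t, h1⟩ := htK h
    exact ⟨t, iK _ _ ((trA h).trans h1)⟩
  have htQ : ∀ h, ∃ t : ℤ, tr (ρ h) = t := fun h => by
    obtain ⟨t, h1⟩ := htA h
    exact ⟨t, by rw [trQ, h1, map_intCast]⟩
  have hσ : ∀ h : H, ∀ t : ℤ, tr (ρ h) = t → tr (Φ h) = t := by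
    intro h t h1
    obtain ⟨t', h2⟩ := htA h
    rw [trQ, h2, map_intCast] at h1
    have h3 : t' = t := by exact_mod_cast h1
    rw [← trA, h2, h3]
    exact map_intCast A.subtype t
  have h2K : (2 : K) ≠ 0 := by
    intro h
    have h1 : (2 : A) = 0 := Subtype.ext h
    have h2 := congrArg σ h1
    rw [map_zero, map_ofNat] at h2
    norm_num at h2
  have hxy : tr (Φ (x * y * x⁻¹ * y⁻¹)) ≠ 2 := by
    rw [← tr_eq, hΦ]
    exact hxy'
  have hxyQ : tr (ρ (x * y * x⁻¹ * y⁻¹)) ≠ 2 := by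
    intro h0
    apply hxy
    have h1 := hσ _ 2 (by rw [h0]; norm_num)
    rw [h1]
    norm_num
  have dtK : ∀ h, dt (Φ h) ≠ 0 := fun h => left_ne_zero_of_mul_eq_one (dt_inv Φ h)
  have dtQ' : ∀ h, dt (ρ h) ≠ 0 := fun h => left_ne_zero_of_mul_eq_one (dt_inv ρ h)
  have hDK : dd (Φ x) (Φ y) ≠ 0 := by
    rw [dd_comm]
    exact mul_ne_zero (mul_ne_zero (dtK x) (dtK y)) (sub_ne_zero.2 (Ne.symm hxy))
  have hDQ : dd (ρ x) (ρ y) ≠ 0 := by
    rw [dd_comm]
    exact mul_ne_zero (mul_ne_zero (dtQ' x) (dtQ' y)) (sub_ne_zero.2 (Ne.symm hxyQ))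
  have hb : ∃ N : ℤ, N ≠ 0 ∧ ∀ h i j, ∃ m : ℤ, N * ρ h i j = m := by
    have b := fun i j => bounded ρ htQ x y hDQ i j
    obtain ⟨N, hN, n1, n2⟩ := Bd.common (b 0 0) (b 0 1)
    obtain ⟨M, hM, m1, m2⟩ := Bd.common (b 1 0) (b 1 1)
    have aux : ∀ (q : ℚ) (N M : ℤ), (∃ m : ℤ, N * q = m) → ∃ m : ℤ, (N * M : ℤ) * q = m := by
      rintro q N M ⟨m, hm⟩
      exact ⟨M * m, by push_cast; rw [← hm]; ring⟩
    refine ⟨N * M, mul_ne_zero hN hM, fun h i j => ?_⟩
    fin_cases i <;> fin_cases j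
    · exact aux _ _ _ (n1 h)
    · exact aux _ _ _ (n2 h)
    · rw [mul_comm N M]
      exact aux _ _ _ (m1 h)
    · rw [mul_comm N M]
      exact aux _ _ _ (m2 h)
  obtain ⟨N, hN, hb⟩ := hb
  have hρi : Function.Injective ρ := by
    rw [injective_iff_map_eq_one]
    intro h hh
    -- the traces of `h z` and `z` agree
    have key : ∀ z : H, tr (Φ (h * z)) = tr (Φ z) := by
      intro z
      obtain ⟨t, h1⟩ := htQ z
      have h2 : tr (ρ (h * z)) = (t : ℚ) := by rw [map_mul, hh, one_mul, h1]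
      rw [hσ _ t h2, hσ _ t h1]
    have k1 := key 1
    have k2 := key x
    have k3 := key y
    have k4 := key (x * y)
    rw [mul_one, map_one, tr_one, tr] at k1
    rw [map_mul, tr, tr, mulE (Φ h), mulE (Φ h)] at k2 k3 k4
    rw [map_mul] at k4
    obtain ⟨r1, r2, r3, r4⟩ := nondeg (Φ x) (Φ y) hDK (Φ h 0 0 - 1) (Φ h 0 1) (Φ h 1 0)
      (Φ h 1 1 - 1) (by linear_combination k1) (by linear_combination k2)
      (by linear_combination k3) (by linear_combination k4)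
    apply hinj
    rw [map_one]
    refine ext2 ?_ ?_ ?_ ?_
    · rw [Matrix.one_apply_eq]; linear_combination r1
    · rw [Matrix.one_apply_ne (by decide), r2]
    · rw [Matrix.one_apply_ne (by decide), r3]
    · rw [Matrix.one_apply_eq]; linear_combination r4
  obtain ⟨ψ, hψ⟩ := conj_int ρ N hN hb hρi
  exact ⟨ψ.toHomUnits, fun g h hgh => hψ (congrArg Units.val hgh)⟩

/-- A group of matrices over `K` with integral traces and determinants `± 1` with a commutator with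
trace different from `2` is isomorphic to a subgroup of `GL₂(ℤ)`. -/
theorem emb3 {H : Type u} [Group H]
    {K : Type v} [Field K] (hK : Rig K) (φ : H →* Matrix.GeneralLinearGroup (Fin 2) K)
    (hφ : Function.Injective φ)
    (ht : ∀ h, ∃ t : ℤ, Matrix.trace (φ h : Matrix (Fin 2) (Fin 2) K) = t)
    (hd : ∀ h, Matrix.det (φ h : Matrix (Fin 2) (Fin 2) K) = 1 ∨
      Matrix.det (φ h : Matrix (Fin 2) (Fin 2) K) = -1) (x y : H)
    (hxy' : Matrix.trace (φ (x * y * x⁻¹ * y⁻¹) : Matrix (Fin 2) (Fin 2) K) ≠ 2) :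
    ∃ ψ : H →* Matrix.GeneralLinearGroup (Fin 2) ℤ, Function.Injective ψ := by
  have := hK.char
  obtain ⟨Φ, hΦ⟩ : ∃ Φ : H →* Matrix (Fin 2) (Fin 2) K,
      ∀ h, Φ h = (φ h : Matrix (Fin 2) (Fin 2) K) :=
    ⟨(Units.coeHom _).comp φ, fun _ => rfl⟩
  have hinj : Function.Injective Φ := fun g h hgh => hφ (Units.ext (by rw [← hΦ, ← hΦ, hgh]))
  have htK : ∀ h, ∃ t : ℤ, tr (Φ h) = t := fun h => by
    obtain ⟨t, h1⟩ := ht h
    exact ⟨t, by rw [← h1, ← hΦ, tr_eq]⟩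
  have hdK : ∀ h, dt (Φ h) = 1 ∨ dt (Φ h) = -1 := fun h => by
    have := hd h
    rw [← hΦ, dt_eq] at this
    exact this
  have hdq : ∀ h, ∃ q : ℤ, dt (Φ h) = q := fun h => by
    rcases hdK h with h1 | h1
    · exact ⟨1, by rw [h1, Int.cast_one]⟩
    · exact ⟨-1, by rw [h1, Int.cast_neg, Int.cast_one]⟩
  have hxy : tr (Φ (x * y * x⁻¹ * y⁻¹)) ≠ 2 := by
    rw [← tr_eq, hΦ]
    exact hxy'
  have dtK : ∀ h, dt (Φ h) ≠ 0 := fun h => left_ne_zero_of_mul_eq_one (H22.G.dt_inv Φ h)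
  have hDK : dd (Φ x) (Φ y) ≠ 0 := by
    rw [H22.G.dd_comm]
    exact mul_ne_zero (mul_ne_zero (dtK x) (dtK y)) (sub_ne_zero.2 (Ne.symm hxy))
  choose t htt using htK
  choose δ hδ using hdq
  -- the rational nilpotent element
  obtain ⟨α, β, γ, hn, hq⟩ := exists_d hK.conics (Φ x) (Φ y) hDK
    (t x ^ 2 - 4 * δ x : ℤ) (t y ^ 2 - 4 * δ y : ℤ) (t (x * y) ^ 2 - 4 * δ (x * y) : ℤ)
    (4 * t (x * y) - 2 * t x * t y : ℤ) (4 * t (x * (x * y)) - 2 * t x * t (x * y) : ℤ)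
    (4 * t (y * (x * y)) - 2 * t y * t (x * y) : ℤ)
    (by rw [htt, hδ]; push_cast; ring) (by rw [htt, hδ]; push_cast; ring)
    (by rw [← map_mul, htt, hδ]; push_cast; ring)
    (by rw [← map_mul, htt, htt, htt]; push_cast; ring)
    (by rw [← map_mul, ← map_mul, htt, htt, htt]; push_cast; ring)
    (by rw [← map_mul, ← map_mul, htt, htt, htt]; push_cast; ring)
  obtain ⟨d, hd'⟩ : ∃ d, D (Φ x) (Φ y) (α : K) β γ = d := ⟨_, rfl⟩
  have d11 : d 1 1 = - d 0 0 := by rw [← hd', D11, D00]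
  rw [hd'] at hn hq
  -- the traces
  have hr : ∀ h : H, ∃ r : ℚ, tr (d * Φ h) = r := by
    intro h
    refine ⟨α * (2 * t (x * h) - t x * t h) + β * (2 * t (y * h) - t y * t h) +
      γ * (2 * t (x * y * h) - t (x * y) * t h), ?_⟩
    rw [← hd', tr_D, ← map_mul, ← map_mul, ← map_mul, ← map_mul, htt, htt, htt, htt, htt, htt, htt]
    push_cast
    ring
  choose r hr using hr
  obtain ⟨h, hh⟩ : ∃ h : H, tr (d * Φ h) ≠ 0 := by
    by_contra hall
    push Not at hall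
    have k1 := hall 1
    have k2 := hall x
    have k3 := hall y
    have k4 := hall (x * y)
    rw [map_one, mul_one, tr] at k1
    rw [map_mul] at k4
    rw [tr, mulE d, mulE d] at k2 k3 k4
    obtain ⟨r1, r2, r3, r4⟩ := H22.G.nondeg (Φ x) (Φ y) hDK (d 0 0) (d 0 1) (d 1 0) (d 1 1)
      k1 (by linear_combination k2) (by linear_combination k3) (by linear_combination k4)
    rcases hn with h | h
    · exact h r2
    · exact h r3
  obtain ⟨u0, u1, l, hl, hu, e00, e01, e10⟩ := nilp (d 0 0) (d 0 1) (d 1 0) hq hn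
  have e11 : d 1 1 = l * (u0 * u1) := by rw [d11, e00, neg_neg]
  -- the new basis
  let S : Matrix (Fin 2) (Fin 2) K := Matrix.of ![![u0, Φ h 0 0 * u0 + Φ h 0 1 * u1],
    ![u1, Φ h 1 0 * u0 + Φ h 1 1 * u1]]
  have hS : S.det ≠ 0 := by
    intro h0
    apply hh
    rw [tr_d u0 u1 l d _ e00 e01 e10 e11]
    rw [Matrix.det_fin_two] at h0
    simp only [S, Matrix.of_apply, Matrix.cons_val', Matrix.cons_val_zero, Matrix.cons_val_one,
      Matrix.cons_val_fin_one] at h0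
    linear_combination l * h0
  let SU : Matrix.GeneralLinearGroup (Fin 2) K := Matrix.GeneralLinearGroup.mkOfDetNeZero S hS
  have hSU : (SU : Matrix (Fin 2) (Fin 2) K) = S := rfl
  let φ' : H →* Matrix.GeneralLinearGroup (Fin 2) K := (MulAut.conj SU⁻¹).toMonoidHom.comp φ
  have hφ'1 : ∀ g, φ' g = SU⁻¹ * φ g * SU := fun g => by
    show SU⁻¹ * φ g * SU⁻¹⁻¹ = _
    rw [inv_inv]
  have hφ'2 : ∀ g, φ' g = SU⁻¹ * φ g * (SU⁻¹)⁻¹ := fun g => rfl
  have hent : ∀ g i j, ∃ q : ℚ, (φ' g : Matrix (Fin 2) (Fin 2) K) i j = q := by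
    intro g
    have hadj : ∀ k : H, adj (Φ k) * Φ h = (δ k : K) • Φ (k⁻¹ * h) := fun k => by
      rw [H22.G.adj_eq, Matrix.smul_mul, map_mul, hδ]
    have hτ : (r h : K) ≠ 0 := by rw [← hr]; exact hh
    let R : Matrix (Fin 2) (Fin 2) ℚ := Matrix.of ![
      ![δ g * r (g⁻¹ * h) / r h, δ (g * h) * r ((g * h)⁻¹ * h) / r h],
      ![r g / r h, r (g * h) / r h]]
    let RK : Matrix (Fin 2) (Fin 2) K := R.map (fun q : ℚ => (q : K))
    have hSR : S * RK = Φ g * S := by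
      refine SR u0 u1 l d (Φ h) (Φ g) RK e00 e01 e10 e11 hh ?_ ?_ ?_ ?_
      · rw [hadj, Matrix.mul_smul, H22.G.tr_smul, hr, hr]
        show ((δ g * r (g⁻¹ * h) / r h : ℚ) : K) * _ = _
        push_cast
        field_simp
      · rw [hr, hr]
        show ((r g / r h : ℚ) : K) * _ = _
        push_cast
        field_simp
      · rw [← map_mul, hadj, Matrix.mul_smul, H22.G.tr_smul, hr, hr]
        show ((δ (g * h) * r ((g * h)⁻¹ * h) / r h : ℚ) : K) * _ = _
        push_cast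
        field_simp
      · rw [← map_mul, hr, hr]
        show ((r (g * h) / r h : ℚ) : K) * _ = _
        push_cast
        field_simp
    have h2 : (φ' g : Matrix (Fin 2) (Fin 2) K) = RK := by
      rw [hφ'1]
      show (SU⁻¹ : Matrix.GeneralLinearGroup (Fin 2) K).1 * (φ g).1 * SU.1 = RK
      rw [Matrix.mul_assoc, show (φ g).1 * SU.1 = S * RK from by rw [hSR, hΦ]; rfl, ← hSU,
        ← Matrix.mul_assoc]
      show (SU⁻¹ : Matrix.GeneralLinearGroup (Fin 2) K).1 * SU.1 * RK = RK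
      rw [Units.inv_mul, Matrix.one_mul]
    intro i j
    exact ⟨R i j, by rw [h2]; rfl⟩
  let A : Subring K := (Rat.castHom K).range
  let e : ℚ ≃+* A := RingEquiv.ofBijective (Rat.castHom K).rangeRestrict
    ⟨fun a b h => (Rat.castHom K).injective (congrArg Subtype.val h),
      (Rat.castHom K).rangeRestrict_surjective⟩
  refine embGL A e.symm.toRingHom φ' ?_ ?_ ?_ ?_ x y ?_
  · exact (MulEquiv.injective (MulAut.conj SU⁻¹)).comp hφ
  · intro g i j
    obtain ⟨q, hq⟩ := hent g i j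
    rw [hq]
    exact ⟨q, rfl⟩
  · intro g
    obtain ⟨s, hs⟩ := ht g
    refine ⟨s, ?_⟩
    rw [← hs, hφ'2]
    exact Matrix.trace_units_conj SU⁻¹ _
  · intro g
    have h1 : Matrix.det (φ' g : Matrix (Fin 2) (Fin 2) K) =
        Matrix.det (φ g : Matrix (Fin 2) (Fin 2) K) := by
      rw [hφ'2]
      exact Matrix.det_units_conj SU⁻¹ _
    rw [h1]
    exact hd g
  · intro h1
    apply hxy'
    rw [← h1, hφ'2]
    exact (Matrix.trace_units_conj SU⁻¹ _).symm

/-- In a noncommutative group of matrices with determinants `± 1` and integral traces such that all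
commutators have the trace `2`, the elements with the determinant `-1` have the order `2`. -/
theorem sq_one {H : Type u} [Group H] {K : Type v} [Field K]
    (Φ : H →* Matrix (Fin 2) (Fin 2) K) (hΦ : Function.Injective Φ)
    (ht : ∀ h, ∃ t : ℤ, tr (Φ h) = t)
    (hK : ∀ χ : K, χ ≠ 0 → (∃ t : ℤ, χ + χ⁻¹ = t) → χ = 1 ∨ χ = -1)
    (hc : ∀ x y : H, tr (Φ (x * y * x⁻¹ * y⁻¹)) = 2) (x y : H) (hxy : x * y ≠ y * x) (h : H)
    (hh : dt (Φ h) = -1) : h * h = 1 := by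
  obtain ⟨c, hcd⟩ : ∃ c, x * y * x⁻¹ * y⁻¹ = c := ⟨_, rfl⟩
  have hc1 : c ≠ 1 := by
    intro h
    apply hxy
    rw [h] at hcd
    have h1 : x * y * x⁻¹ = y := mul_inv_eq_one.1 hcd
    exact mul_inv_eq_iff_eq_mul.1 h1
  have hc2 : Φ c ≠ 1 := fun h => hc1 (hΦ (h.trans (map_one Φ).symm))
  have htc : tr (Φ c) = 2 := by rw [← hcd]; exact hc x y
  have hdc : dt (Φ c) = 1 := by rw [← hcd]; exact dt_comm Φ x y
  obtain ⟨α, hα⟩ : ∃ α, Φ c 0 0 - 1 = α := ⟨_, rfl⟩
  have h00 : Φ c 0 0 = 1 + α := by rw [← hα]; ring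
  have h11 : Φ c 1 1 = 1 - α := by
    rw [tr] at htc
    linear_combination htc - h00
  have h0 : α ^ 2 + Φ c 0 1 * Φ c 1 0 = 0 := by
    have := hdc
    rw [dt, h00, h11] at this
    linear_combination -this
  have hn : Φ c 0 1 ≠ 0 ∨ Φ c 1 0 ≠ 0 := by
    by_contra h
    rw [not_or, not_not, not_not] at h
    rw [h.1, h.2, mul_zero, add_zero] at h0
    have hα0 : α = 0 := pow_eq_zero_iff (two_ne_zero) |>.1 h0
    apply hc2
    refine ext2 ?_ ?_ ?_ ?_
    · rw [h00, hα0, add_zero, Matrix.one_apply_eq]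
    · rw [h.1, Matrix.one_apply_ne (by decide)]
    · rw [h.2, Matrix.one_apply_ne (by decide)]
    · rw [h11, hα0, sub_zero, Matrix.one_apply_eq]
  have hτ : α * (Φ h 0 0 - Φ h 1 1) + Φ c 0 1 * Φ h 1 0 + Φ c 1 0 * Φ h 0 1 = 0 := by
    have h1 := hc c h
    have h2 := tr_adj Φ c h
    rw [h1, tr_comm_uni (Φ c) (Φ h) α hdc h00 h11, hdc] at h2
    have h3 : (α * (Φ h 0 0 - Φ h 1 1) + Φ c 0 1 * Φ h 1 0 + Φ c 1 0 * Φ h 0 1) ^ 2 = 0 := by
      linear_combination h2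
    exact pow_eq_zero_iff (two_ne_zero) |>.1 h3
  obtain ⟨χ, χ', e1, e2⟩ := eigen α (Φ c 0 1) (Φ c 1 0) (Φ h 0 0) (Φ h 0 1) (Φ h 1 0) (Φ h 1 1)
    (-1) h0 hn (by rw [← hh, dt]) hτ
  have hχ : χ ≠ 0 := by
    intro h
    rw [h, zero_mul] at e1
    exact one_ne_zero (neg_eq_zero.1 e1.symm)
  have hχ' : χ' = -χ⁻¹ := by
    field_simp
    linear_combination e1
  obtain ⟨t, htt⟩ := ht h
  have e3 : χ - χ⁻¹ = t := by
    rw [← htt, tr, ← e2, hχ']; ring
  have e4 : χ ^ 2 = 1 ∨ χ ^ 2 = -1 := by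
    refine hK (χ ^ 2) (pow_ne_zero 2 hχ) ⟨t ^ 2 + 2, ?_⟩
    push_cast
    rw [← e3]
    field_simp
    ring
  have e5 : χ ^ 2 = 1 := by
    rcases e4 with h | h
    · exact h
    · have h5 : χ⁻¹ = -χ := by
        field_simp
        linear_combination h
      rcases hK χ hχ ⟨0, by rw [h5]; push_cast; ring⟩ with h6 | h6 <;> rw [h6] <;> ring
  have e6 : χ⁻¹ = χ := by
    field_simp
    linear_combination -e5
  have e7 : tr (Φ h) = 0 := by
    rw [htt, ← e3, e6, sub_self]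
  have e8 : Φ h * Φ h = 1 := by
    rw [sq_eq, e7, hh, zero_smul, neg_smul, one_smul, zero_sub, neg_neg]
  exact hΦ (by rw [map_mul, e8, map_one])

end Pool.Agent.NegK.AP.Emb
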