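import Pool.Agent.Lib.MP_28303a_al.AP.Lin
import Pool.Agent.Lib.MP_28303a_al.NT.ER71.Iter
import Pool.Agent.Lib.MP_28303a_al.NT.H80.Block

/-! # Groups of tame automorphisms of the affine plane and of matrices: the final forms -/

set_option autoImplicit false
set_option linter.unusedSectionVars false
set_option linter.unusedVariables false

namespace Pool.Agent.NegK.AP

universe u

open Matrix
open Pool.Agent.NegK.TW Pool.Agent.NegK.TT Pool.Agent.NegK.NT
open NT5 (Kr)

theorem oneOf_inL (hRel : ER.RelStatement.{u}) : OneOf.{u} fun G _ => H19.InL G :=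
  fun Γ _ Y j hE hV => ER71.inL_gen (fun v : Y.V j => MulAction.stabilizer Γ v)
    (fun k _ hk => hRel Γ Y j hE k hk) hV

theorem oneOf_inK (hRel : ER.RelStatement.{u}) : OneOf.{u} fun G _ => InK G :=
  fun Γ _ Y j hE hV => ER71.inK_gen (fun v : Y.V j => MulAction.stabilizer Γ v)
    (fun k _ hk => hRel Γ Y j hE k hk) hV

section

variable {F : Type u} [Field F] {A : Type u} [CommRing A] {N : ℕ} (hN : 0 < N)
  (hF : (N : F) = 0) (hA : (N : A) = 0) {n : ℕ} (b : Fin n → ℕ)
  (hb : ∀ k, (Finset.univ.filter fun i => b i = k).card ≤ 2) {K : Type u} [Field K]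
  (hK : H70.Rig K) {Γ : Type u} [Group Γ] (χ : Γ →* tame F × GL (Fin n) A × GL (Fin 2) K)
  (htri : ∀ g, ((χ g).2.1 : Matrix (Fin n) (Fin n) A).BlockTriangular b)
  (htf : TorsionFree χ.range)

include hN hF hA hb hK htri htf in
/-- Block triangular matrices. -/
theorem lin_block {𝒞 : (G : Type u) → [Group G] → Prop} (hU : H66.ClosedLoc 𝒞)
    (hT : NT92.TreesRC 𝒞) (hO : OneOf 𝒞) (hker : Kr 𝒞 Γ fun g => χ g = 1) : 𝒞 Γ := by
  let α : Γ →* tame F := (MonoidHom.fst _ _).comp χ
  let χ₂ : Γ →* GL (Fin n) A := (MonoidHom.fst _ _).comp ((MonoidHom.snd _ _).comp χ)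
  let ψ : Γ →* GL (Fin 2) K := (MonoidHom.snd _ _).comp ((MonoidHom.snd _ _).comp χ)
  obtain ⟨r, φ, h1, h2⟩ := H80.exists_diag hN hA b hb χ₂ htri
  have hA' : (N : Fin r → A) = 0 := funext fun i => hA
  have key : ∀ g m, 0 < m → α g ^ m = 1 → φ g ^ m = 1 → ψ g ^ m = 1 → χ g = 1 := by
    intro g m hm k1 k2 k3
    rw [← map_pow] at k2
    obtain ⟨s, hs, k4⟩ := h2 _ k2
    rw [map_pow, ← pow_mul] at k4
    refine congrArg Subtype.val (htf ⟨χ g, g, rfl⟩ (m * s) (Nat.mul_pos hm hs)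
      (Subtype.ext (Prod.ext ?_ (Prod.ext k4 ?_))))
    · show α g ^ (m * s) = 1
      rw [pow_mul, k1, one_pow]
    · show ψ g ^ (m * s) = 1
      rw [pow_mul, k3, one_pow]
  refine lin_gen hU hT hO hN hF hN hA' hK α φ ψ (fun g m hm k1 k2 k3 => ?_)
    fun H _ f hf h => hker H f hf fun x => ?_
  · have h3 := key g m hm k1 k2 k3
    exact ⟨congrArg Prod.fst h3, h1 g (congrArg (fun x => x.2.1) h3),
      congrArg (fun x => x.2.2) h3⟩
  · exact key (f x) 1 one_pos (by rw [pow_one]; exact (h x).1)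
      (by rw [pow_one]; exact (h x).2.1) (by rw [pow_one]; exact (h x).2.2)

include hN hF hA hb hK htri htf in
/-- The kernel is in `𝒩`. -/
theorem lin_inL (hRel : ER.RelStatement.{u}) (hker : InN χ.ker) : H19.InL Γ := by
  refine lin_block hN hF hA b hb hK χ htri htf (𝒞 := fun G _ => H19.InL G)
    (fun G _ h => ((TT.main.{u}).2.2.2.1 G).2.2.2.2.1 h) (fun Γ _ Y h _ => trees_inL Y h)
    (oneOf_inL hRel) fun H _ f hf h => ?_
  have h1 : InN H := TT.H66.inN_of_injective (f.codRestrict χ.ker h)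
    (fun a b hab => hf (congrArg Subtype.val hab)) hker
  exact ⟨h1, inL_of_inRC _ (inRC_of_inN h1)⟩

include hN hF hA hb hK htri htf in
/-- The kernel is trivial. -/
theorem lin_inK (hRel : ER.RelStatement.{u}) (hχ : Function.Injective χ) : InK Γ := by
  refine lin_block hN hF hA b hb hK χ htri htf (𝒞 := fun G _ => InK G)
    (fun G _ h => inK_loc G h) (fun Γ _ Y h h' => trees_inK Y h h')
    (oneOf_inK hRel) fun H _ f hf h => ?_
  have h2 : ∀ x : H, x = 1 := fun x => hf (by
    rw [map_one]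
    exact hχ ((h x).trans (map_one χ).symm))
  exact ⟨inN_of_subsingleton H h2, inK_of_subsingleton H h2⟩

end

end Pool.Agent.NegK.AP
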