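import Pool.Agent.Lib.MP_28303a_al.AP.Sub

/-! # The linear parts -/

set_option autoImplicit false

namespace Pool.Agent.NegK.AP

universe u

open MvPolynomial

variable {K : Type u} [Field K]

/-- The index of the variable. -/
theorem coeff_comb (φ : Au K) (a b c : K) (k : Fin 2) :
    coeff (Finsupp.single k 1) (φ (C a * X 0 + C b * X 1 + C c)) =
      coeff (Finsupp.single k 1) (φ (X 0)) * a + coeff (Finsupp.single k 1) (φ (X 1)) * b := by
  have h : (0 : Fin 2 →₀ ℕ) ≠ Finsupp.single k 1 := fun h => by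
    simpa using DFunLike.congr_fun h k
  rw [au_lin, coeff_add, coeff_add, coeff_C_mul, coeff_C_mul, coeff_C, if_neg h, add_zero,
    mul_comm a, mul_comm b]

/-- The linear part of an affine automorphism. -/
noncomputable def linM (K : Type u) [Field K] : affS K →* Matrix (Fin 2) (Fin 2) K where
  toFun φ := Matrix.of fun k i => coeff (Finsupp.single k 1) (φ.1 (X i))
  map_one' := by
    ext k i
    show coeff (Finsupp.single k 1) (X i : MvPolynomial (Fin 2) K) = _
    rw [coeff_X, Matrix.one_apply]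
    by_cases h : k = i
    · rw [if_pos h, h, if_pos rfl]
    · rw [if_neg h, if_neg]
      intro h1
      exact h (Finsupp.single_left_injective one_ne_zero h1).symm
  map_mul' φ ψ := by
    ext k i
    rw [Matrix.mul_apply, Fin.sum_univ_two]
    show coeff (Finsupp.single k 1) ((φ.1 * ψ.1) (X i)) =
      coeff (Finsupp.single k 1) (φ.1 (X 0)) * coeff (Finsupp.single 0 1) (ψ.1 (X i)) +
      coeff (Finsupp.single k 1) (φ.1 (X 1)) * coeff (Finsupp.single 1 1) (ψ.1 (X i))
    rw [AlgEquiv.mul_apply]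
    conv_lhs => rw [exists_lin (ψ.2 i).1]
    exact coeff_comb _ _ _ _ _

/-- The linear part of an affine automorphism. -/
noncomputable def lin (K : Type u) [Field K] : affS K →* Matrix.GeneralLinearGroup (Fin 2) K :=
  (linM K).toHomUnits

theorem lin_apply (φ : affS K) (k i : Fin 2) :
    (lin K φ).1 k i = coeff (Finsupp.single k 1) (φ.1 (X i)) := rfl

theorem nsmul_zero_of {p : ℕ} (hp : (p : K) = 0) (f : MvPolynomial (Fin 2) K) : p • f = 0 := by
  rw [← Nat.cast_smul_eq_nsmul K, hp, zero_smul]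

theorem aff_ker {p : ℕ} (hp : (p : K) = 0) (φ : affS K) (h : lin K φ = 1) : φ.1 ^ p = 1 := by
  have h1 : ∀ k i, coeff (Finsupp.single k 1) (φ.1 (X i)) = (1 : Matrix (Fin 2) (Fin 2) K) k i :=
    fun k i => by
      rw [← lin_apply, h]
      rfl
  refine au_ext ?_ ?_
  · have e := exists_lin (φ.2 0).1
    rw [h1, h1, Matrix.one_apply_eq, Matrix.one_apply_ne (by decide), C_1, one_mul, C_0, zero_mul,
      add_zero] at e
    rw [pow_apply φ.1 e (au_C _ _), nsmul_zero_of hp, add_zero]
    rfl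
  · have e := exists_lin (φ.2 1).1
    rw [h1, h1, Matrix.one_apply_eq, Matrix.one_apply_ne (by decide), C_1, one_mul, C_0, zero_mul,
      zero_add] at e
    rw [pow_apply φ.1 e (au_C _ _), nsmul_zero_of hp, add_zero]
    rfl

/-- The diagonal part of a triangular automorphism. -/
noncomputable def dgM (K : Type u) [Field K] : triS K →* K × K where
  toFun φ := (coeff (Finsupp.single 0 1) (φ.1 (X 0)), coeff (Finsupp.single 1 1) (φ.1 (X 1)))
  map_one' := by
    have h : Tri (1 : Au K) 1 1 0 0 := by simp [Tri]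
    show (coeff (Finsupp.single 0 1) ((1 : Au K) (X 0)),
      coeff (Finsupp.single 1 1) ((1 : Au K) (X 1))) = _
    rw [(tri_coeff h).1, (tri_coeff h).2]
    rfl
  map_mul' := by
    rintro ⟨φ, a, c, d, P, ha, hc, h⟩ ⟨ψ, a', c', d', P', ha', hc', h'⟩
    show (coeff (Finsupp.single 0 1) ((φ * ψ) (X 0)), coeff (Finsupp.single 1 1) ((φ * ψ) (X 1))) =
      (coeff (Finsupp.single 0 1) (φ (X 0)), coeff (Finsupp.single 1 1) (φ (X 1))) *
      (coeff (Finsupp.single 0 1) (ψ (X 0)), coeff (Finsupp.single 1 1) (ψ (X 1)))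
    rw [(tri_coeff (tri_mul h h')).1, (tri_coeff (tri_mul h h')).2, (tri_coeff h).1,
      (tri_coeff h).2, (tri_coeff h').1, (tri_coeff h').2, mul_comm a', mul_comm c']
    rfl

/-- The diagonal part of a triangular automorphism. -/
noncomputable def dg (K : Type u) [Field K] : triS K →* (K × K)ˣ := (dgM K).toHomUnits

theorem tri_ker {p : ℕ} (hp : (p : K) = 0) (φ : triS K) (h : dg K φ = 1) :
    φ.1 ^ (p * p) = 1 := by
  have key : ∀ φ : triS K, dg K φ = 1 → ∃ (d : K) (P : Polynomial K), Tri φ.1 1 1 d P := by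
    rintro ⟨φ, a, c, d, P, ha, hc, h⟩ h1
    have h2 : (coeff (Finsupp.single 0 1) (φ (X 0)), coeff (Finsupp.single 1 1) (φ (X 1))) =
        ((1, 1) : K × K) := congrArg Units.val h1
    rw [(tri_coeff h).1, (tri_coeff h).2] at h2
    have h3 : a = 1 := congrArg Prod.fst h2
    have h4 : c = 1 := congrArg Prod.snd h2
    subst h3
    subst h4
    exact ⟨d, P, h⟩
  obtain ⟨d, P, h1⟩ := key φ h
  have h2 : (φ.1 ^ p) (X 1) = X 1 := by
    have e := h1.2
    rw [C_1, one_mul] at e
    rw [pow_apply φ.1 e (au_C _ _), nsmul_zero_of hp, add_zero]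
  obtain ⟨d', P', h3⟩ := key (φ ^ p) (by rw [map_pow, h, one_pow])
  have h4 : (φ.1 ^ p) (X 0) = X 0 + Polynomial.aeval (X 1) P' := by
    have e := h3.1
    rw [C_1, one_mul] at e
    exact e
  rw [pow_mul]
  refine au_ext ?_ ?_
  · rw [pow_apply (φ.1 ^ p) h4 (by rw [au_aeval, h2]), nsmul_zero_of hp, add_zero]
    rfl
  · rw [pow_apply (φ.1 ^ p) (x := X 1) (y := 0) (by rw [h2, add_zero]) (map_zero _), smul_zero,
      add_zero]
    rfl

end Pool.Agent.NegK.AP
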