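import Pool.Agent.Lib.MP_28303a_al.NT5.Cor

/-! # The barycentric subdivision of a tree -/

set_option autoImplicit false
set_option linter.unusedSectionVars false
set_option linter.unusedVariables false

namespace Pool.Agent.NegK.AP

universe u

open Pool.Agent.NegK.TW Pool.Agent.NegK.TT Pool.Agent.NegK.NT
open NT5 (isTree_of_ht Fm grf)

section

variable {V : Type u} (G : SimpleGraph V)

/-- The barycentric subdivision. -/
def sd : SimpleGraph (V ⊕ G.edgeSet) where
  Adj x y := (∃ v e, v ∈ e.1 ∧ x = Sum.inl v ∧ y = Sum.inr e) ∨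
    ∃ v e, v ∈ e.1 ∧ y = Sum.inl v ∧ x = Sum.inr e
  symm := ⟨fun x y h => h.symm⟩
  loopless := ⟨fun x h => by
    rcases h with ⟨v, e, _, rfl, h⟩ | ⟨v, e, _, rfl, h⟩ <;> exact Sum.inl_ne_inr h⟩

theorem sd_lr {v : V} {e : G.edgeSet} : (sd G).Adj (Sum.inl v) (Sum.inr e) ↔ v ∈ e.1 := by
  constructor
  · rintro (⟨v', e', h, h1, h2⟩ | ⟨v', e', h, h1, h2⟩)
    · rw [Sum.inl_injective h1, Sum.inr_injective h2]
      exact h
    · exact absurd h1 Sum.inr_ne_inl
  · intro h
    exact Or.inl ⟨v, e, h, rfl, rfl⟩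

theorem sd_rl {v : V} {e : G.edgeSet} : (sd G).Adj (Sum.inr e) (Sum.inl v) ↔ v ∈ e.1 := by
  rw [SimpleGraph.adj_comm, sd_lr]

theorem sd_ll {v w : V} : ¬ (sd G).Adj (Sum.inl v) (Sum.inl w) := by
  rintro (⟨_, _, _, _, h⟩ | ⟨_, _, _, _, h⟩) <;> exact Sum.inl_ne_inr h

theorem sd_rr {v w : G.edgeSet} : ¬ (sd G).Adj (Sum.inr v) (Sum.inr w) := by
  rintro (⟨_, _, _, h, _⟩ | ⟨_, _, _, h, _⟩) <;> exact Sum.inr_ne_inl h

/-- The sum of the heights of the ends. -/
def hs (ht : V → ℕ) (e : Sym2 V) : ℕ := Sym2.lift ⟨fun a b => ht a + ht b, fun a b => add_comm _ _⟩ e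

theorem hs_mk (ht : V → ℕ) (a b : V) : hs ht s(a, b) = ht a + ht b := rfl

/-- The height on the subdivision. -/
def hh (ht : V → ℕ) : V ⊕ G.edgeSet → ℕ := Sum.elim (fun v => 2 * ht v) fun e => hs ht e.1

theorem sd_isTree (r : V) (ht : V → ℕ) (ha : ∀ x y, G.Adj x y → ht x ≠ ht y)
    (hb : ∀ x y z, G.Adj x y → G.Adj x z → ht y < ht x → ht z < ht x → y = z)
    (hc : ∀ x, x = r ∨ ∃ y, G.Adj x y ∧ ht y < ht x) : (sd G).IsTree := by
  have hoth : ∀ (e : G.edgeSet) (v : V), v ∈ e.1 → ∃ w, G.Adj v w ∧ e.1 = s(v, w) := by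
    intro e v hv
    obtain ⟨w, hw⟩ := Sym2.mem_iff_exists.1 hv
    refine ⟨w, ?_, hw⟩
    have := e.2
    rwa [hw, SimpleGraph.mem_edgeSet] at this
  have hlt : ∀ (e : G.edgeSet) (v w : V), e.1 = s(v, w) →
      hh G ht (Sum.inr e) = ht v + ht w := by
    intro e v w h
    show hs ht e.1 = _
    rw [h, hs_mk]
  refine isTree_of_ht (sd G) (Sum.inl r) (hh G ht) ?_ ?_ ?_
  · have key : ∀ (v : V) (e : G.edgeSet), v ∈ e.1 → hh G ht (Sum.inl v) ≠ hh G ht (Sum.inr e) := by
      intro v e hv
      obtain ⟨w, hw, he⟩ := hoth e v hv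
      rw [hlt e v w he]
      show 2 * ht v ≠ _
      have := ha v w hw
      omega
    rintro _ _ (⟨v, e, h, rfl, rfl⟩ | ⟨v, e, h, rfl, rfl⟩)
    · exact key v e h
    · exact (key v e h).symm
  · intro x y z hy hz ly lz
    rcases x with x | x
    · rcases y with y | y
      · exact absurd hy (sd_ll G)
      rcases z with z | z
      · exact absurd hz (sd_ll G)
      obtain ⟨a, h1, h2⟩ := hoth y x ((sd_lr G).1 hy)
      obtain ⟨b, h3, h4⟩ := hoth z x ((sd_lr G).1 hz)
      rw [hlt y x a h2] at ly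
      rw [hlt z x b h4] at lz
      have e1 : ht x + ht a < 2 * ht x := ly
      have e2 : ht x + ht b < 2 * ht x := lz
      have hab : a = b := hb x a b h1 h3 (by omega) (by omega)
      refine congrArg Sum.inr (Subtype.ext ?_)
      rw [h2, h4, hab]
    · rcases y with y | y
      swap
      · exact absurd hy (sd_rr G)
      rcases z with z | z
      swap
      · exact absurd hz (sd_rr G)
      have m1 := (sd_rl G).1 hy
      have m2 := (sd_rl G).1 hz
      obtain ⟨a, h1, h2⟩ := hoth x y m1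
      rw [hlt x y a h2] at ly lz
      have e1 : 2 * ht y < ht y + ht a := ly
      have e2 : 2 * ht z < ht y + ht a := lz
      rw [h2, Sym2.mem_iff] at m2
      rcases m2 with rfl | rfl
      · rfl
      · omega
  · rintro (x | e)
    · rcases hc x with rfl | ⟨y, h1, h2⟩
      · exact Or.inl rfl
      · refine Or.inr ⟨Sum.inr ⟨s(x, y), h1⟩, (sd_lr G).2 (Sym2.mem_mk_left x y), ?_⟩
        show ht x + ht y < 2 * ht x
        omega
    · obtain ⟨e, he⟩ := e
      induction e using Sym2.ind with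
      | _ a b =>
        have hab : G.Adj a b := he
        right
        rcases lt_or_gt_of_ne (ha a b hab) with h | h
        · refine ⟨Sum.inl a, (sd_rl G).2 (Sym2.mem_mk_left a b), ?_⟩
          show 2 * ht a < ht a + ht b
          omega
        · refine ⟨Sum.inl b, (sd_rl G).2 (Sym2.mem_mk_right a b), ?_⟩
          show 2 * ht b < ht a + ht b
          omega

variable {H : Type u} [Group H] [MulAction H V]
  (hadj : ∀ (g : H) (v w : V), G.Adj v w → G.Adj (g • v) (g • w))

include hadj in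
theorem map_edge (g : H) (e : Sym2 V) (he : e ∈ G.edgeSet) :
    Sym2.map (g • ·) e ∈ G.edgeSet := by
  induction e using Sym2.ind with
  | _ a b => exact hadj g a b he

/-- The action on the subdivision. -/
@[reducible] def sdAct : MulAction H (V ⊕ G.edgeSet) where
  smul g := Sum.elim (fun v => Sum.inl (g • v)) fun e =>
    Sum.inr ⟨Sym2.map (g • ·) e.1, map_edge G hadj g e.1 e.2⟩
  one_smul x := by
    rcases x with v | e
    · exact congrArg Sum.inl (one_smul H v)
    · refine congrArg Sum.inr (Subtype.ext ?_)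
      show Sym2.map (fun v => (1 : H) • v) e.1 = e.1
      have : (fun v : V => (1 : H) • v) = id := funext fun v => one_smul H v
      rw [this, Sym2.map_id, id]
  mul_smul g h x := by
    rcases x with v | e
    · exact congrArg Sum.inl (mul_smul g h v)
    · refine congrArg Sum.inr (Subtype.ext ?_)
      show Sym2.map (fun v => (g * h) • v) e.1 =
        Sym2.map (fun v => g • v) (Sym2.map (fun v => h • v) e.1)
      rw [Sym2.map_map]
      have : (fun v : V => (g * h) • v) = (fun v => g • v) ∘ (fun v => h • v) :=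
        funext fun v => mul_smul g h v
      rw [this]

theorem sd_inl (g : H) (v : V) : letI := sdAct G hadj
    g • (Sum.inl v : V ⊕ G.edgeSet) = Sum.inl (g • v) := rfl

theorem sd_inr (g : H) (e : G.edgeSet) : letI := sdAct G hadj
    g • (Sum.inr e : V ⊕ G.edgeSet) =
      Sum.inr ⟨Sym2.map (g • ·) e.1, map_edge G hadj g e.1 e.2⟩ := rfl

theorem sd_act (htree : (sd G).IsTree) : letI := sdAct G hadj; TreeAct H (sd G) := by
  letI := sdAct G hadj
  refine ⟨htree, ?_, ?_⟩
  · have key : ∀ (g : H) (v : V) (e : G.edgeSet), v ∈ e.1 → (sd G).Adj (g • (Sum.inl v))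
        (g • (Sum.inr e : V ⊕ G.edgeSet)) := by
      intro g v e h
      rw [sd_inl, sd_inr, sd_lr]
      exact Sym2.mem_map.2 ⟨v, h, rfl⟩
    rintro g _ _ (⟨v, e, h, rfl, rfl⟩ | ⟨v, e, h, rfl, rfl⟩)
    · exact key g v e h
    · exact (key g v e h).symm
  · rintro g _ _ (⟨v, e, h, rfl, rfl⟩ | ⟨v, e, h, rfl, rfl⟩) ⟨h1, h2⟩
    · exact Sum.inl_ne_inr h1
    · exact Sum.inr_ne_inl h1

/-- The square of an element which fixes a vertex of the subdivision fixes a vertex. -/
theorem sd_fix (g : H) (x : V ⊕ G.edgeSet) (hx : letI := sdAct G hadj; g • x = x) :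
    ∃ v : V, g • g • v = v := by
  rcases x with v | ⟨e, he⟩
  · have h1 : g • v = v := Sum.inl_injective hx
    exact ⟨v, by rw [h1, h1]⟩
  · have h1 : Sym2.map (g • ·) e = e := congrArg Subtype.val (Sum.inr_injective hx)
    induction e using Sym2.ind with
    | _ a b =>
      refine ⟨a, ?_⟩
      rw [Sym2.map_mk, Sym2.eq_iff] at h1
      rcases h1 with ⟨h1, _⟩ | ⟨h1, h2⟩
      · have h3 : g • a = a := h1
        rw [h3, h3]
      · have h3 : g • a = b := h1
        have h4 : g • b = a := h2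
        rw [h3, h4]

end

end Pool.Agent.NegK.AP
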