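import Pool.Agent.Lib.MP_28303a_al.AP.Emb
import Pool.Agent.Lib.MP_28303a_al.AP.Sd

/-! # Groups with homomorphisms to a commutative group and to a group of matrices with integral
traces -/

set_option autoImplicit false
set_option linter.unusedSectionVars false
set_option linter.unusedVariables false

namespace Pool.Agent.NegK.AP

universe u v

open Matrix
open Pool.Agent.NegK.TW Pool.Agent.NegK.TT Pool.Agent.NegK.NT
open NT5 (Kr)

/-- All groups which embed into `G` with an image of elements with the property `P` are in `𝒩`. -/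
def KN (G : Type u) [Group G] (P : G → Prop) : Prop :=
  ∀ (H : Type u) [Group H] (f : H →* G), Function.Injective f → (∀ h, P (f h)) → InN H

/-- Finitely generated commutative groups. -/
theorem exists_zn' (Q : Type u) [CommGroup Q] [Group.FG Q] :
    ∃ (n : ℕ) (θ : Q →* Multiplicative (Fin n → ℤ)), ∀ x, θ x = 1 → ∃ m, 0 < m ∧ x ^ m = 1 := by
  have htf : TorsionFree (Q ⧸ CommGroup.torsion Q) := fun g n hn h =>
    (pow_eq_one_iff_left hn.ne').1 h
  obtain ⟨n, θ, hθ⟩ := NT5.exists_zn (Q ⧸ CommGroup.torsion Q) (fun a b => mul_comm a b) htf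
  refine ⟨n, θ.comp (QuotientGroup.mk' _), fun x hx => ?_⟩
  have h1 : QuotientGroup.mk' (CommGroup.torsion Q) x = 1 := hθ (hx.trans (map_one θ).symm)
  have h2 : x ∈ CommGroup.torsion Q := (QuotientGroup.eq_one_iff x).1 h1
  obtain ⟨m, hm, h3⟩ := isOfFinOrder_iff_pow_eq_one.1 h2
  exact ⟨m, hm, h3⟩

/-- Extensions of torsionfree subgroups of a finitely generated commutative group. -/
theorem inN_comm (G Q : Type u) [Group G] [CommGroup Q] [Group.FG Q] (q : G →* Q)
    (htf : ∀ (g : G) (n : ℕ), 0 < n → q g ^ n = 1 → q g = 1) (hk : KN G fun g => q g = 1) :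
    InN G := by
  obtain ⟨n, θ, hθ⟩ := exists_zn' Q
  refine NT5.inN_zn' n G (θ.comp q) fun H _ f hf h => hk H f hf fun x => ?_
  obtain ⟨m, hm, h1⟩ := hθ _ (h x)
  exact htf _ m hm h1

section

variable {K : Type u} [Field K] (hK : H70.Rig K) (H Q : Type u) [Group H] [Group.FG H]
  [CommGroup Q] [Group.FG Q] (q : H →* Q) (ψ : H →* GL (Fin 2) K)
  (ht : ∀ h, ∃ z : ℤ, Matrix.trace (ψ h).1 = (z : K))
  (hd : ∀ h, Matrix.det (ψ h).1 = 1 ∨ Matrix.det (ψ h).1 = -1)
  (htf : ∀ (h : H) (n : ℕ), 0 < n → q h ^ n = 1 → ψ h ^ n = 1 → q h = 1 ∧ ψ h = 1)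
  (hk : KN H fun h => q h = 1 ∧ ψ h = 1)

include htf hk in
/-- Subgroups such that the images in `GL₂(K)` have finite order. -/
theorem mix_ell (S : Subgroup H) (hS : ∀ g ∈ S, ∃ n, 0 < n ∧ ψ g ^ n = 1) : InN S := by
  have key : ∀ g ∈ S, ∀ n, 0 < n → q g ^ n = 1 → q g = 1 ∧ ψ g = 1 := by
    intro g hg n hn h
    obtain ⟨m, hm, h1⟩ := hS g hg
    refine htf g (n * m) (Nat.mul_pos hn hm) ?_ ?_
    · rw [pow_mul, h, one_pow]
    · rw [mul_comm, pow_mul, h1, one_pow]
  refine inN_comm S Q (q.comp S.subtype) (fun g n hn h => (key g.1 g.2 n hn h).1)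
    fun G _ f hf h => hk G (S.subtype.comp f) (Subtype.val_injective.comp hf) fun x => ?_
  exact key (f x).1 (f x).2 1 one_pos (by rw [pow_one]; exact h x)

include htf hk in
/-- The image in `GL₂(K)` embeds into `GL₂(ℤ)`. -/
theorem mix_emb (θ : ψ.range →* GL (Fin 2) ℤ) (hθ : Function.Injective θ) : InRC H := by
  let q2 : H →* GL (Fin 2) ℤ := θ.comp ψ.rangeRestrict
  have h2 : ∀ (h : H) (n : ℕ), q2 h ^ n = 1 → ψ h ^ n = 1 := by
    intro h n h1
    have h3 : θ (ψ.rangeRestrict h ^ n) = 1 := by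
      rw [map_pow]
      exact h1
    have h4 : ψ.rangeRestrict h ^ n = 1 := hθ (h3.trans (map_one θ).symm)
    exact congrArg Subtype.val h4
  let i : MulAction H (ULift.{u} NT5.Fm) :=
    { smul := fun h x => ⟨q2 h • x.down⟩
      one_smul := fun x => ULift.ext _ _ (by
        show q2 1 • x.down = x.down
        rw [map_one, one_smul])
      mul_smul := fun h h' x => ULift.ext _ _ (by
        show q2 (h * h') • x.down = q2 h • q2 h' • x.down
        rw [map_mul, mul_smul]) }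
  have hadj : ∀ (g : H) (v w : ULift.{u} NT5.Fm), NT5.grf.Adj v w → NT5.grf.Adj (g • v) (g • w) := by
    intro h x y hx
    show NT5.Fm.P (q2 h • x.down) (q2 h • y.down) = 5
    rw [NT5.Fm.P_smulG]
    exact hx
  have hfix : ∀ (g : H) (x : ULift.{u} NT5.Fm ⊕ NT5.grf.{u}.edgeSet),
      (letI := sdAct NT5.grf.{u} hadj; g • x = x) → ∃ n, 0 < n ∧ ψ g ^ n = 1 := by
    intro g x hx
    obtain ⟨v, hv⟩ := sd_fix NT5.grf.{u} hadj g x hx
    have h3 : q2 (g * g) • v.down = v.down := by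
      rw [map_mul, mul_smul]
      exact congrArg ULift.down hv
    obtain ⟨n, hn, h4⟩ := NT5.Fm.order_fixG h3
    refine ⟨2 * n, by omega, ?_⟩
    have h5 := h2 (g * g) n h4
    rwa [map_mul, ← pow_two, ← pow_mul] at h5
  have htree : (sd NT5.grf.{u}).IsTree :=
    sd_isTree NT5.grf ⟨NT5.Fm.one⟩ (fun q => NT5.Fm.ht q.down) (fun _ _ h => NT5.Fm.ha_aux h)
      (fun _ _ _ h h' k k' => ULift.ext _ _ (NT5.Fm.hb_aux h h' k k')) fun q => by
        rcases NT5.Fm.hc_aux q.down with h | ⟨y, h, h'⟩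
        · exact Or.inl (ULift.ext _ _ h)
        · exact Or.inr ⟨⟨y⟩, h, h'⟩
  letI := sdAct NT5.grf.{u} hadj
  refine H66.wald H _ (sd NT5.grf.{u}) (sd_act NT5.grf.{u} hadj htree) (fun x => ?_)
    fun x y _ => ?_
  · exact inRC_of_inN (mix_ell H Q q ψ htf hk _ fun g hg => hfix g x hg)
  · exact mix_ell H Q q ψ htf hk _ fun g hg => hfix g x hg.1

include hK ht hd htf hk in
/-- Finitely generated groups. -/
theorem mix_fg : InRC H := by
  have := hK.char
  have htr : ∀ g : ψ.range, ∃ t : ℤ, Matrix.trace (g.1 : Matrix (Fin 2) (Fin 2) K) = t := by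
    rintro ⟨_, ⟨h, rfl⟩⟩
    exact ht h
  have hdt : ∀ g : ψ.range, Matrix.det (g.1 : Matrix (Fin 2) (Fin 2) K) = 1 ∨
      Matrix.det (g.1 : Matrix (Fin 2) (Fin 2) K) = -1 := by
    rintro ⟨_, ⟨h, rfl⟩⟩
    exact hd h
  by_cases hc : ∀ x y : ψ.range,
      Matrix.trace (((x * y * x⁻¹ * y⁻¹ : ψ.range) : GL (Fin 2) K) : Matrix (Fin 2) (Fin 2) K) = 2
  swap
  · push Not at hc
    obtain ⟨x, y, hxy⟩ := hc
    obtain ⟨θ, hθ⟩ := Emb.emb3 hK ψ.range.subtype Subtype.val_injective htr hdt x y hxy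
    exact mix_emb H Q q ψ htf hk θ hθ
  -- all commutators have the trace `2`
  by_cases hcomm : ∀ x y : ψ.range, x * y = y * x
  · let χ : H →* Q × GL (Fin 2) K := q.prod ψ
    refine (NT5.comm_ext (𝒞 := fun _ _ => True) (fun _ _ _ => trivial) (fun _ _ _ _ _ => trivial) H
      χ.range χ.rangeRestrict ?_ ?_ ?_).1
    · rintro ⟨_, ⟨a, rfl⟩⟩ ⟨_, ⟨b, rfl⟩⟩
      refine Subtype.ext (Prod.ext (mul_comm _ _) ?_)
      exact congrArg Subtype.val (hcomm ⟨ψ a, a, rfl⟩ ⟨ψ b, b, rfl⟩)
    · rintro ⟨_, ⟨a, rfl⟩⟩ n hn h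
      have h1 : χ a ^ n = 1 := congrArg Subtype.val h
      have h2 := htf a n hn (congrArg Prod.fst h1) (congrArg Prod.snd h1)
      exact Subtype.ext (Prod.ext h2.1 h2.2)
    · intro G _ f hf h
      refine ⟨hk G f hf fun x => ?_, trivial⟩
      have h1 : χ (f x) = 1 := congrArg Subtype.val (h x)
      exact ⟨congrArg Prod.fst h1, congrArg Prod.snd h1⟩
  push Not at hcomm
  obtain ⟨x, y, hxy⟩ := hcomm
  -- the matrices
  let Φ : ψ.range →* Matrix (Fin 2) (Fin 2) K := (Units.coeHom _).comp ψ.range.subtype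
  have hΦ : Function.Injective Φ := fun a b h => Subtype.ext (Units.ext h)
  have hsq : ∀ h : H, Matrix.det (ψ h).1 = -1 → ψ h ^ 2 = 1 := by
    intro h hh
    have h1 := Emb.sq_one Φ hΦ (fun g => by
      obtain ⟨t, h1⟩ := htr g
      exact ⟨t, by rw [← h1, ← H22.G.tr_eq]; rfl⟩) hK.units (fun a b => by
        rw [← H22.G.tr_eq]
        exact hc a b) x y hxy ⟨ψ h, h, rfl⟩ (by rw [← H22.G.dt_eq]; exact hh)
    rw [pow_two]
    exact congrArg Subtype.val h1
  -- the subgroup of the elements with determinant `1`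
  let dH : H →* Kˣ := Matrix.GeneralLinearGroup.det.comp ψ
  have hdH : ∀ h, h ∈ dH.ker ↔ Matrix.det (ψ h).1 = 1 := by
    intro h
    rw [MonoidHom.mem_ker]
    constructor
    · intro h1
      exact congrArg Units.val h1
    · intro h1
      exact Units.ext h1
  have hfi : dH.ker.FiniteIndex := by
    have hfin : Finite dH.range := by
      have : Set.Finite ({1, -1} : Set Kˣ) := Set.toFinite _
      refine (this.subset ?_).to_subtype
      rintro _ ⟨h, rfl⟩
      rcases hd h with h1 | h1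
      · exact Or.inl (Units.ext h1)
      · exact Or.inr (Units.ext h1)
    exact Subgroup.finiteIndex_ker dH
  have hfg : Group.FG dH.ker := Subgroup.fg_of_index_ne_zero _
  -- the commutative group
  let χ : dH.ker →* Q × GL (Fin 2) K := (q.prod ψ).comp dH.ker.subtype
  have hcm : ∀ a b : χ.range, a * b = b * a := by
    let D : Subgroup (GL (Fin 2) K) := ψ.range ⊓ Matrix.GeneralLinearGroup.det.ker
    have hD : ∀ g : D, (g.1.1 : Matrix (Fin 2) (Fin 2) K).det = 1 := fun g =>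
      congrArg Units.val g.2.2
    let φ : D →* Matrix.SpecialLinearGroup (Fin 2) K :=
      { toFun := fun g => ⟨g.1.1, hD g⟩
        map_one' := rfl
        map_mul' := fun g h => rfl }
    have hφ : Function.Injective φ := fun a b h =>
      Subtype.ext (Units.ext (congrArg Subtype.val h))
    have h1 := H22.comm_of φ hφ (fun g => by
      obtain ⟨t, h1⟩ := htr ⟨g.1, g.2.1⟩
      exact ⟨t, by rw [← h1, ← H22.tr_eq]; rfl⟩) hK.units fun a b => by
        rw [← H22.tr_eq]
        exact hc ⟨a.1, a.2.1⟩ ⟨b.1, b.2.1⟩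
    rintro ⟨_, ⟨a, rfl⟩⟩ ⟨_, ⟨b, rfl⟩⟩
    refine Subtype.ext (Prod.ext (mul_comm _ _) ?_)
    have ha : ψ a.1 ∈ D := ⟨⟨a.1, rfl⟩, a.2⟩
    have hb : ψ b.1 ∈ D := ⟨⟨b.1, rfl⟩, b.2⟩
    exact congrArg Subtype.val (h1 ⟨_, ha⟩ ⟨_, hb⟩)
  let iP : CommGroup χ.range :=
    { (inferInstance : Group χ.range) with
      mul_comm := hcm }
  have hfP : @Group.FG χ.range iP.toGroup := inferInstanceAs (Group.FG χ.range)
  obtain ⟨n, θ, hθ⟩ := exists_zn' Q
  refine inRC_of_inN (NT5.inN_zn' n H (θ.comp q) fun G _ f hf h => ?_)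
  have hf1 : ∀ g, f g ∈ dH.ker := by
    intro g
    rw [hdH]
    rcases hd (f g) with h1 | h1
    · exact h1
    · exfalso
      obtain ⟨m, hm, h2⟩ := hθ _ (h g)
      have h3 := htf (f g) (m * 2) (by omega) (by rw [pow_mul, h2, one_pow])
        (by rw [mul_comm, pow_mul, hsq _ h1, one_pow])
      rw [h3.2] at h1
      have h4 : (1 : K) = -1 := by
        rw [← h1]
        simp
      have h5 : (2 : K) = 0 := by linear_combination h4
      exact two_ne_zero h5
  let f' : G →* dH.ker := f.codRestrict _ hf1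
  have key : ∀ (g : G) (n : ℕ), 0 < n → χ (f' g) ^ n = 1 → q (f g) = 1 ∧ ψ (f g) = 1 :=
    fun g n hn h1 => htf (f g) n hn (congrArg Prod.fst h1) (congrArg Prod.snd h1)
  refine @inN_comm G χ.range _ iP hfP (χ.rangeRestrict.comp f') (fun g n hn h1 => ?_)
    fun G' _ f'' hf'' h1 => ?_
  · have h2 := key g n hn (congrArg Subtype.val h1)
    exact Subtype.ext (Prod.ext h2.1 h2.2)
  · refine hk G' (f.comp f'') (hf.comp hf'') fun x => ?_
    exact key (f'' x) 1 one_pos (by rw [pow_one]; exact congrArg Subtype.val (h1 x))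

end

/-- Groups with a homomorphism to a commutative group and a homomorphism to a group of matrices with
integral traces and determinants `± 1` such that the image of the pair is torsionfree. -/
theorem mix {K : Type u} [Field K] (hK : H70.Rig K) (H Q : Type u) [Group H] [CommGroup Q]
    (q : H →* Q) (ψ : H →* GL (Fin 2) K)
    (ht : ∀ h, ∃ z : ℤ, Matrix.trace (ψ h).1 = (z : K))
    (hd : ∀ h, Matrix.det (ψ h).1 = 1 ∨ Matrix.det (ψ h).1 = -1)
    (htf : ∀ (h : H) (n : ℕ), 0 < n → q h ^ n = 1 → ψ h ^ n = 1 → q h = 1 ∧ ψ h = 1)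
    (hk : KN H fun h => q h = 1 ∧ ψ h = 1) : InRC H := by
  refine ((TT.main.{u}).2.2.2.1 H).2.2.2.2.2.1 fun S => ⟨Subgroup.closure (S : Set H),
    fun s hs => Subgroup.subset_closure hs, ?_⟩
  let q0 : Subgroup.closure (S : Set H) →* Q := q.comp (Subgroup.subtype _)
  have hfg : Group.FG q0.range := inferInstance
  refine mix_fg hK _ q0.range q0.rangeRestrict (ψ.comp (Subgroup.subtype _)) (fun h => ht h.1)
    (fun h => hd h.1) (fun h n hn h1 h2 => ?_) fun G _ f hf h => ?_
  · have h3 := htf h.1 n hn (congrArg Subtype.val h1) h2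
    exact ⟨Subtype.ext h3.1, h3.2⟩
  · exact hk G ((Subgroup.subtype _).comp f) (Subtype.val_injective.comp hf) fun x =>
      ⟨congrArg Subtype.val (h x).1, (h x).2⟩

end Pool.Agent.NegK.AP
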