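import Pool.Agent.Lib.MP_28303a_al.NT5.Cor2

/-! # The trees of a finitely generated group of matrices -/

set_option autoImplicit false
set_option linter.unusedSectionVars false
set_option linter.unusedVariables false

namespace Pool.Agent.NegK.AP

universe u

open Matrix WithZero
open Pool.Agent.NegK.TW Pool.Agent.NegK.TT Pool.Agent.NegK.NT
open H1 (TD)
open NT5 (vdet vdet_eq_one entries map_inj)

/-- Finitely many trees of a finitely generated group of matrices over a field of characteristic `0`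
in which the algebraic integers are the integers, such that the groups of elliptic elements have
integral traces and determinants `± 1`. -/
theorem trees_K (K : Type u) [Field K] [CharZero K]
    (hi : ∀ x : K, IsIntegral ℤ x → ∃ z : ℤ, x = (z : K)) (Γ : Type u) [Group Γ]
    [hfg : Group.FG Γ] (ψ : Γ →* GL (Fin 2) K) :
    ∃ (ι : Type) (_ : Finite ι) (T : ι → TD Γ), ∀ H : Subgroup Γ,
      (∀ g ∈ H, ∀ a, (T a).Ell g) → ∀ g ∈ H, (∃ z : ℤ, Matrix.trace (ψ g).1 = (z : K)) ∧
        (Matrix.det (ψ g).1 = 1 ∨ Matrix.det (ψ g).1 = -1) := by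
  classical
  obtain ⟨S, hS⟩ := hfg.out
  obtain ⟨E, hE'⟩ := entries ψ S
  have hE : ∀ g i j, (ψ g).1 i j ∈ Subring.closure (E : Set K) := fun g =>
    hE' g (by rw [hS]; exact Subgroup.mem_top g)
  let B : Subring K := Subring.closure (E : Set K)
  let L := FractionRing B
  have hBL : Function.Injective (algebraMap B L) := IsFractionRing.injective B L
  have hcz : CharZero B := by
    refine charZero_of_injective_ringHom (f := (Int.castRingHom B)) fun a b hab => ?_
    have h1 := congrArg Subtype.val hab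
    have h2 : ((a : ℤ) : K) = b := by
      simpa using h1
    exact_mod_cast h2
  -- the matrices over `L`
  let χ : Γ →* Matrix (Fin 2) (Fin 2) B :=
    { toFun := fun g => Matrix.of fun i j => ⟨(ψ g).1 i j, hE g i j⟩
      map_one' := by
        ext i j
        change (ψ 1).1 i j = (((1 : Matrix (Fin 2) (Fin 2) B) i j : B) : K)
        rw [map_one, Units.val_one, Matrix.one_apply, Matrix.one_apply]
        split_ifs <;> rfl
      map_mul' := fun g h => by
        ext i j
        rw [Matrix.mul_apply]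
        change (ψ (g * h)).1 i j = ((∑ k, _ : B) : K)
        rw [map_mul, Units.val_mul, Matrix.mul_apply, AddSubmonoidClass.coe_finsetSum]
        rfl }
  let ψ0 : Γ →* GL (Fin 2) L :=
    (GeneralLinearGroup.map (algebraMap B L)).comp χ.toHomUnits
  have h0 : ∀ g i j, (ψ0 g).1 i j = algebraMap B L ⟨(ψ g).1 i j, hE g i j⟩ :=
    fun g i j => rfl
  -- the generators
  let E' : Finset B := (E.finite_toSet.preimage
    (f := ((↑) : B → K)) Subtype.val_injective.injOn).toFinset
  have hE'' : Subring.closure (E' : Set B) = ⊤ := by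
    rw [Set.Finite.coe_toFinset, eq_top_iff]
    intro x _
    have h3 : (x : K) ∈ (Subring.closure (((↑) : B → K) ⁻¹' (E : Set K))).map B.subtype := by
      rw [RingHom.map_closure]
      refine Subring.closure_mono ?_ x.2
      intro y hy
      exact ⟨⟨y, Subring.subset_closure hy⟩, hy, rfl⟩
    obtain ⟨y, hy, hxy⟩ := h3
    rwa [Subtype.ext (a1 := x) (a2 := y) hxy.symm]
  obtain ⟨m, v, hv⟩ := H70.valg B E' hE'' L
  choose T1 hT1 using fun a => H1.exists_TD_gl L (v a)
  choose T2 hT2 using fun a => H1.exists_TD_line _ ((vdet (v a)).comp ψ0)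
  refine ⟨Fin m ⊕ Fin m, inferInstance, Sum.elim (fun a => (T1 a).comp ψ0) T2, fun H hH => ?_⟩
  have hfix : ∀ g ∈ H, ∀ a,
      v a (Matrix.det (ψ0 g).1) = 1 ∧ v a (Matrix.trace (ψ0 g).1) ≤ 1 := by
    intro g hg a
    have h1 : v a (Matrix.det (ψ0 g).1) = 1 := vdet_eq_one (v a) (hT2 a g (hH g hg (Sum.inr a)))
    exact ⟨h1, hT1 a (ψ0 g) (hH g hg (Sum.inl a)) h1.le⟩
  have hint : ∀ b : B, (∀ a, v a (algebraMap B L b) ≤ 1) → ∃ z : ℤ, (b : K) = z := fun b hb =>
    hi b ((hv b hb).map B.subtype.toIntAlgHom)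
  have htr : ∀ g, ∃ b : B, (b : K) = Matrix.trace (ψ g).1 ∧
      algebraMap B L b = Matrix.trace (ψ0 g).1 := by
    intro g
    refine ⟨⟨(ψ g).1 0 0, hE g 0 0⟩ + ⟨(ψ g).1 1 1, hE g 1 1⟩, ?_, ?_⟩
    · rw [Matrix.trace_fin_two]
      rfl
    · rw [Matrix.trace_fin_two, h0, h0, map_add]
  have hdt : ∀ g, ∃ b : B, (b : K) = Matrix.det (ψ g).1 ∧
      algebraMap B L b = Matrix.det (ψ0 g).1 := by
    intro g
    refine ⟨⟨(ψ g).1 0 0, hE g 0 0⟩ * ⟨(ψ g).1 1 1, hE g 1 1⟩ -
      ⟨(ψ g).1 0 1, hE g 0 1⟩ * ⟨(ψ g).1 1 0, hE g 1 0⟩, ?_, ?_⟩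
    · rw [Matrix.det_fin_two]
      rfl
    · rw [Matrix.det_fin_two, h0, h0, h0, h0, map_sub, map_mul, map_mul]
  have hz : ∀ g ∈ H, ∃ z : ℤ, Matrix.det (ψ g).1 = (z : K) := by
    intro g hg
    obtain ⟨b, h1, h2⟩ := hdt g
    obtain ⟨z, h3⟩ := hint b fun a => by
      rw [h2]
      exact (hfix g hg a).1.le
    exact ⟨z, by rw [← h1, h3]⟩
  intro g hg
  constructor
  · obtain ⟨b, h1, h2⟩ := htr g
    obtain ⟨z, h3⟩ := hint b fun a => by
      rw [h2]
      exact (hfix g hg a).2
    exact ⟨z, by rw [← h1, h3]⟩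
  · obtain ⟨z, h1⟩ := hz g hg
    obtain ⟨z', h2⟩ := hz g⁻¹ (inv_mem hg)
    have h3 : (z : K) * z' = 1 := by
      rw [← h1, ← h2, ← Matrix.det_mul, map_inv]
      have : (ψ g).1 * ((ψ g)⁻¹).1 = 1 := Units.mul_inv _
      rw [this, Matrix.det_one]
    have h4 : z * z' = 1 := by exact_mod_cast h3
    rw [h1]
    rcases Int.isUnit_iff.1 (IsUnit.of_mul_eq_one _ h4) with h5 | h5
    · exact Or.inl (by rw [h5, Int.cast_one])
    · exact Or.inr (by rw [h5, Int.cast_neg, Int.cast_one])

end Pool.Agent.NegK.AP
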