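import Pool.Agent.Lib.MP_28303a_al.AP.Main
import Pool.Agent.Lib.MP_28303a_al.AP.Mix
import Pool.Agent.Lib.MP_28303a_al.AP.Tk

/-! # Groups with homomorphisms to the tame automorphisms of the affine plane over a field of
positive characteristic, to `GL₂(A)`, `A` a commutative ring of positive characteristic, and to
`GL₂(K)` -/

set_option autoImplicit false
set_option linter.unusedSectionVars false
set_option linter.unusedVariables false

namespace Pool.Agent.NegK.AP

universe u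

open Matrix
open Pool.Agent.NegK.TW Pool.Agent.NegK.TT Pool.Agent.NegK.NT
open NT92 (TreesRC)
open NT5 (Kr)
open H1 (TD)

/-- The relative theorem on one of several trees for the class `𝒞`. -/
def OneOf (𝒞 : (G : Type u) → [Group G] → Prop) : Prop :=
  ∀ (Γ : Type u) [Group Γ] (Y : Trees Γ) (j : Fin Y.m),
    (∀ (v : ∀ i, Y.V i) (w : Y.V j), (Y.G j).Adj (v j) w →
      InRC (Y.st v ⊓ MulAction.stabilizer Γ w : Subgroup Γ)) →
    (∀ v : Y.V j, 𝒞 (MulAction.stabilizer Γ v)) → 𝒞 Γ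

/-- The relative theorem for a finite index set. -/
theorem oneOf_fin {𝒞 : (G : Type u) → [Group G] → Prop} (h : OneOf 𝒞) (Γ : Type u) [Group Γ]
    (ι : Type) [Finite ι] (T : ι → TD Γ) (a : ι)
    (hE : ∀ H : Subgroup Γ, (∀ g ∈ H, ∀ b, (T b).Ell g) →
      (∀ x y : (T a).V, (T a).G.Adj x y → (∀ g ∈ H, g • x = x ∧ g • y = y) → InRC H))
    (hV : ∀ x : (T a).V, 𝒞 (MulAction.stabilizer Γ x)) : 𝒞 Γ := by
  have := Fintype.ofFinite ι
  let e := Fintype.equivFin ι
  let Y : Trees Γ := ⟨Fintype.card ι, fun j => (T (e.symm j)).V, fun j => (T (e.symm j)).act,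
    fun j => (T (e.symm j)).G, fun j => (T (e.symm j)).tree⟩
  have hea : e.symm (e a) = a := e.symm_apply_apply a
  refine h Γ Y (e a) (fun v w hvw => ?_) ?_
  · have h1 : ∀ g ∈ (Y.st v ⊓ MulAction.stabilizer Γ w : Subgroup Γ), ∀ j, g • v j = v j :=
      fun g hg j => (Subgroup.mem_iInf.1 hg.1) j
    have hell : ∀ g ∈ (Y.st v ⊓ MulAction.stabilizer Γ w : Subgroup Γ), ∀ b, (T b).Ell g := by
      intro g hg b
      have h2 : (T (e.symm (e b))).Ell g := ⟨v (e b), h1 g hg (e b)⟩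
      rwa [e.symm_apply_apply] at h2
    have key : ∀ c, c = a → ∀ x y : (T c).V, (T c).G.Adj x y →
        (∀ g ∈ (Y.st v ⊓ MulAction.stabilizer Γ w : Subgroup Γ), g • x = x ∧ g • y = y) →
        InRC (Y.st v ⊓ MulAction.stabilizer Γ w : Subgroup Γ) := by
      rintro c rfl x y hxy hx
      exact hE _ hell x y hxy hx
    exact key _ hea (v (e a)) w hvw fun g hg => ⟨h1 g hg (e a), hg.2⟩
  · have key : ∀ c, c = a → ∀ x : (T c).V, 𝒞 (MulAction.stabilizer Γ x) := by
      rintro c rfl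
      exact hV
    exact key _ hea

/-! ### Pairs of matrices -/

/-- Pairs of matrices. -/
def pairM (F A : Type u) [CommRing F] [CommRing A] :
    Matrix (Fin 2) (Fin 2) F × Matrix (Fin 2) (Fin 2) A →* Matrix (Fin 2) (Fin 2) (F × A) where
  toFun M := Matrix.of fun i j => (M.1 i j, M.2 i j)
  map_one' := by
    ext i j
    · show (1 : Matrix (Fin 2) (Fin 2) F) i j = ((1 : Matrix (Fin 2) (Fin 2) (F × A)) i j).1
      rw [Matrix.one_apply, Matrix.one_apply]
      split_ifs <;> rfl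
    · show (1 : Matrix (Fin 2) (Fin 2) A) i j = ((1 : Matrix (Fin 2) (Fin 2) (F × A)) i j).2
      rw [Matrix.one_apply, Matrix.one_apply]
      split_ifs <;> rfl
  map_mul' M M' := by
    refine Matrix.ext fun i j => ?_
    rw [Matrix.mul_apply, Fin.sum_univ_two]
    refine Prod.ext ?_ ?_
    · show (M.1 * M'.1) i j = _
      rw [Matrix.mul_apply, Fin.sum_univ_two]
      rfl
    · show (M.2 * M'.2) i j = _
      rw [Matrix.mul_apply, Fin.sum_univ_two]
      rfl

/-- Pairs of invertible matrices. -/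
def pairG (F A : Type u) [CommRing F] [CommRing A] :
    GL (Fin 2) F × GL (Fin 2) A →* GL (Fin 2) (F × A) :=
  ((pairM F A).comp ((Units.coeHom _).prodMap (Units.coeHom _))).toHomUnits

theorem pairG_inj (F A : Type u) [CommRing F] [CommRing A] :
    Function.Injective (pairG F A) := by
  intro x y h
  have h0 : (pairG F A x).1 = (pairG F A y).1 := congrArg Units.val h
  have h1 : ∀ i j, ((x.1.1 i j, x.2.1 i j) : F × A) = (y.1.1 i j, y.2.1 i j) := fun i j =>
    congrFun (congrFun h0 i) j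
  refine Prod.ext (Units.ext (Matrix.ext fun i j => ?_)) (Units.ext (Matrix.ext fun i j => ?_))
  · exact congrArg Prod.fst (h1 i j)
  · exact congrArg Prod.snd (h1 i j)

/-- Diagonal matrices. -/
def dia (F : Type u) [CommRing F] : F × F →* Matrix (Fin 2) (Fin 2) F where
  toFun x := Matrix.diagonal ![x.1, x.2]
  map_one' := by
    rw [← Matrix.diagonal_one]
    refine congrArg Matrix.diagonal (funext fun i => ?_)
    fin_cases i <;> rfl
  map_mul' x y := by
    rw [Matrix.diagonal_mul_diagonal]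
    refine congrArg Matrix.diagonal (funext fun i => ?_)
    fin_cases i <;> rfl

/-- Invertible diagonal matrices. -/
def diaG (F : Type u) [CommRing F] : (F × F)ˣ →* GL (Fin 2) F :=
  ((dia F).comp (Units.coeHom _)).toHomUnits

theorem dia_inj (F : Type u) [CommRing F] : Function.Injective (diaG F) := by
  intro x y h
  have h0 : (diaG F x).1 = (diaG F y).1 := congrArg Units.val h
  have h1 : ∀ i, Matrix.diagonal ![x.1.1, x.1.2] i i = Matrix.diagonal ![y.1.1, y.1.2] i i :=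
    fun i => congrFun (congrFun h0 i) i
  have h2 := h1 0
  have h3 := h1 1
  rw [Matrix.diagonal_apply_eq, Matrix.diagonal_apply_eq] at h2 h3
  exact Units.ext (Prod.ext h2 h3)

section

variable {𝒞 : (G : Type u) → [Group G] → Prop} (hU : H66.ClosedLoc 𝒞) (hT : TreesRC 𝒞)
  (hO : OneOf 𝒞) {F : Type u} [Field F] {p : ℕ} (hp : 0 < p) (hpF : (p : F) = 0)
  {A : Type u} [CommRing A] {N : ℕ} (hN : 0 < N) (hA : (N : A) = 0)
  {K : Type u} [Field K] (hK : H70.Rig K) {Γ : Type u} [Group Γ]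
  (α : Γ →* tame F) (φ : Γ →* GL (Fin 2) A) (ψ : Γ →* GL (Fin 2) K)
  (htf : ∀ (g : Γ) (n : ℕ), 0 < n → α g ^ n = 1 → φ g ^ n = 1 → ψ g ^ n = 1 →
    α g = 1 ∧ φ g = 1 ∧ ψ g = 1)
  (hker : Kr 𝒞 Γ fun g => α g = 1 ∧ φ g = 1 ∧ ψ g = 1)

theorem pow_of_cj (S : Subgroup (Au F)) {H : Type u} [Group H] (f : H →* Γ) (x : tame F)
    (hx : ∀ h, x⁻¹ * α (f h) * x ∈ S.subgroupOf (tame F)) (h : H) (n : ℕ)
    (h1 : (cj α S f x hx h).1 ^ n = 1) : α (f h) ^ n = 1 := by
  rw [cj_apply] at h1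
  have h2 : (x⁻¹ * α (f h) * x) ^ n = 1 := by
    apply Subtype.ext
    rw [SubmonoidClass.coe_pow, h1]
    rfl
  have h3 : x⁻¹ * α (f h) * x = MulAut.conj x⁻¹ (α (f h)) := by simp
  rw [h3, ← map_pow, MulEquiv.map_eq_one_iff] at h2
  exact h2

theorem cj_of_eq (S : Subgroup (Au F)) {H : Type u} [Group H] (f : H →* Γ) (x : tame F)
    (hx : ∀ h, x⁻¹ * α (f h) * x ∈ S.subgroupOf (tame F)) (h : H)
    (h1 : α (f h) = 1) : cj α S f x hx h = 1 := by
  apply Subtype.ext
  rw [cj_apply, h1]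
  simp

include hU hT hN hA hK htf hker hp hpF in
/-- The stabilizers of vertices. -/
theorem lin_vert {H : Type u} [Group H] (f : H →* Γ) (hf : Function.Injective f)
    (l : H →* GL (Fin 2) F) (c : ℕ) (hc : 0 < c) (h1 : ∀ h, α (f h) = 1 → l h = 1)
    (h2 : ∀ h, l h = 1 → α (f h) ^ c = 1) : 𝒞 H := by
  have hcast : (((p * N : ℕ) : F × A)) = 0 := by
    refine Prod.ext ?_ ?_
    · show ((p * N : ℕ) : F × A).1 = 0
      rw [Prod.fst_natCast, Nat.cast_mul, hpF, zero_mul]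
    · show ((p * N : ℕ) : F × A).2 = 0
      rw [Prod.snd_natCast, Nat.cast_mul, hA, mul_zero]
  let φ' : H →* GL (Fin 2) (F × A) := (pairG F A).comp (l.prod (φ.comp f))
  have hφ' : ∀ h, φ' h = 1 → l h = 1 ∧ φ (f h) = 1 := by
    intro h h3
    have h4 : (l h, φ (f h)) = 1 := pairG_inj F A (h3.trans (map_one _).symm)
    exact ⟨congrArg Prod.fst h4, congrArg Prod.snd h4⟩
  have key : ∀ h n, 0 < n → φ' h ^ n = 1 → ψ (f h) ^ n = 1 →
      α (f h) = 1 ∧ φ (f h) = 1 ∧ ψ (f h) = 1 := by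
    intro h n hn h3 h4
    rw [← map_pow] at h3
    obtain ⟨h5, h6⟩ := hφ' _ h3
    have h7 := h2 _ h5
    rw [map_pow, map_pow] at h6 h7
    refine htf (f h) (n * c) (Nat.mul_pos hn hc) ?_ ?_ ?_
    · rw [pow_mul, h7]
    · rw [pow_mul, h6, one_pow]
    · rw [pow_mul, h4, one_pow]
  refine NT5.gl2_gen3 hU hT (F × A) (p * N) (Nat.mul_pos hp hN) hcast K hK H φ' (ψ.comp f)
    (fun h n hn h3 h4 => ?_) fun G _ f' hf' h3 => ?_
  · obtain ⟨h5, h6, h7⟩ := key h n hn h3 h4
    refine ⟨?_, h7⟩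
    show pairG F A (l h, φ (f h)) = 1
    rw [h1 h h5, h6]
    exact map_one _
  · refine hker G (f.comp f') (hf.comp hf') fun g => ?_
    exact key (f' g) 1 one_pos (by rw [pow_one]; exact (h3 g).1) (by rw [pow_one]; exact (h3 g).2)

include hK htf hker in
/-- The stabilizers of edges. -/
theorem lin_edge {H Q : Type u} [Group H] [CommGroup Q] (f : H →* Γ) (hf : Function.Injective f)
    (q : H →* Q) (c : ℕ) (hc : 0 < c) (h1 : ∀ h, α (f h) = 1 → q h = 1)
    (h2 : ∀ h, q h = 1 → α (f h) ^ c = 1) (hφ : ∀ h, ∃ m, 0 < m ∧ φ (f h) ^ m = 1)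
    (ht : ∀ h, ∃ z : ℤ, Matrix.trace (ψ (f h)).1 = (z : K))
    (hd : ∀ h, Matrix.det (ψ (f h)).1 = 1 ∨ Matrix.det (ψ (f h)).1 = -1) : InRC H := by
  have key : ∀ h n, 0 < n → q h ^ n = 1 → ψ (f h) ^ n = 1 →
      α (f h) = 1 ∧ φ (f h) = 1 ∧ ψ (f h) = 1 := by
    intro h n hn h3 h4
    rw [← map_pow] at h3
    have h7 := h2 _ h3
    rw [map_pow, map_pow] at h7
    obtain ⟨m, hm, h8⟩ := hφ h
    refine htf (f h) (n * c * m) (Nat.mul_pos (Nat.mul_pos hn hc) hm) ?_ ?_ ?_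
    · rw [pow_mul, pow_mul, h7, one_pow]
    · rw [mul_comm, pow_mul, h8, one_pow]
    · rw [pow_mul, pow_mul, h4, one_pow, one_pow]
  refine mix hK H Q q (ψ.comp f) ht hd (fun h n hn h3 h4 => ?_) fun G _ f' hf' h3 => ?_
  · obtain ⟨h5, h6, h7⟩ := key h n hn h3 h4
    exact ⟨h1 h h5, h7⟩
  · exact (hker G (f.comp f') (hf.comp hf') fun g => key (f' g) 1 one_pos
      (by rw [pow_one]; exact (h3 g).1) (by rw [pow_one]; exact (h3 g).2)).1

include hU hT hO hp hpF hN hA hK htf hker in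
/-- Finitely generated groups. -/
theorem lin_fg [Group.FG Γ] : 𝒞 Γ := by
  have := hK.char
  obtain ⟨ι1, _, T1, k1⟩ := NT5.gl2_trees' A N hN hA Γ φ
  obtain ⟨ι2, _, T2, k2⟩ := trees_K K hK.int Γ ψ
  let _ : MulAction Γ ((tame F ⧸ tA F) ⊕ (tame F ⧸ tB F)) := MulAction.compHom _ α
  have hsl : ∀ (g : Γ) (x : tame F),
      g • (Sum.inl (x : tame F ⧸ tA F) : (tame F ⧸ tA F) ⊕ (tame F ⧸ tB F)) =
        Sum.inl ((α g * x : tame F) : tame F ⧸ tA F) := fun g x => rfl
  have hsr : ∀ (g : Γ) (x : tame F),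
      g • (Sum.inr (x : tame F ⧸ tB F) : (tame F ⧸ tA F) ⊕ (tame F ⧸ tB F)) =
        Sum.inr ((α g * x : tame F) : tame F ⧸ tB F) := fun g x => rfl
  have hconj : ∀ (g x : tame F), x⁻¹ * g * x = ((g * x)⁻¹ * x)⁻¹ := fun g x => by group
  have hSA : ∀ (x : tame F) (g : Γ), g • (Sum.inl (x : tame F ⧸ tA F) :
      (tame F ⧸ tA F) ⊕ (tame F ⧸ tB F)) = Sum.inl (x : tame F ⧸ tA F) →
      x⁻¹ * α g * x ∈ tA F := fun x g hg => by
    have h1 := QuotientGroup.eq.1 (Sum.inl_injective ((hsl g x).symm.trans hg))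
    rw [hconj]
    exact inv_mem h1
  have hSB : ∀ (x : tame F) (g : Γ), g • (Sum.inr (x : tame F ⧸ tB F) :
      (tame F ⧸ tA F) ⊕ (tame F ⧸ tB F)) = Sum.inr (x : tame F ⧸ tB F) →
      x⁻¹ * α g * x ∈ tB F := fun x g hg => by
    have h1 := QuotientGroup.eq.1 (Sum.inr_injective ((hsr g x).symm.trans hg))
    rw [hconj]
    exact inv_mem h1
  have htree : TreeAct Γ (cosetGraph (tA F) (tB F)) := by
    refine ⟨tree, ?_, ?_⟩
    · rintro g v w ⟨x, h⟩
      refine ⟨α g * x, ?_⟩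
      rcases h with ⟨rfl, rfl⟩ | ⟨rfl, rfl⟩
      · exact Or.inl ⟨hsl g x, hsr g x⟩
      · exact Or.inr ⟨hsr g x, hsl g x⟩
    · rintro g v w ⟨x, h⟩ ⟨h1, _⟩
      rcases h with ⟨rfl, rfl⟩ | ⟨rfl, rfl⟩
      · exact Sum.inl_ne_inr ((hsl g x).symm.trans h1)
      · exact Sum.inr_ne_inl ((hsr g x).symm.trans h1)
  -- the triangular part
  have hdg : ∀ {H : Type u} [Group H] (f : H →* Γ) (x : tame F)
      (hx : ∀ h, x⁻¹ * α (f h) * x ∈ (triS F).subgroupOf (tame F)),
      (∀ h, α (f h) = 1 → (dg F).comp (cj α (triS F) f x hx) h = 1) ∧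
      ∀ h, (dg F).comp (cj α (triS F) f x hx) h = 1 → α (f h) ^ (p * p) = 1 := by
    intro H _ f x hx
    refine ⟨fun h h1 => ?_, fun h h1 => ?_⟩
    · rw [MonoidHom.comp_apply, cj_of_eq α _ f x hx h h1, map_one]
    · exact pow_of_cj α _ f x hx h _ (tri_ker hpF _ h1)
  refine oneOf_fin hO Γ (Option (ι1 ⊕ ι2))
    (fun o => o.elim ⟨_, inferInstance, cosetGraph (tA F) (tB F), htree⟩ (Sum.elim T1 T2)) none
    (fun H hH x y hxy hfix => ?_) fun x => ?_
  · have hφ : ∀ h : H, ∃ m, 0 < m ∧ φ (H.subtype h) ^ m = 1 := fun h =>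
      k1 h.1 fun i => hH h.1 h.2 (some (Sum.inl i))
    have hψ := k2 H fun g hg i => hH g hg (some (Sum.inr i))
    obtain ⟨z, hz⟩ : ∃ z : tame F, ∀ g ∈ H, z⁻¹ * α g * z ∈ tB F := by
      obtain ⟨z, hz⟩ := hxy
      refine ⟨z, fun g hg => ?_⟩
      rcases hz with ⟨rfl, rfl⟩ | ⟨rfl, rfl⟩
      · exact hSB z g (hfix g hg).2
      · exact hSB z g (hfix g hg).1
    obtain ⟨e1, e2⟩ := hdg H.subtype z fun h => hz h.1 h.2
    exact lin_edge hK α φ ψ htf hker H.subtype Subtype.val_injective _ (p * p) (Nat.mul_pos hp hp)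
      e1 e2 hφ (fun h => (hψ h.1 h.2).1) fun h => (hψ h.1 h.2).2
  · rcases x with x | x
    · obtain ⟨x, rfl⟩ := QuotientGroup.mk_surjective x
      have hx : ∀ h : MulAction.stabilizer Γ (Sum.inl (x : tame F ⧸ tA F) :
          (tame F ⧸ tA F) ⊕ (tame F ⧸ tB F)),
          x⁻¹ * α (Subgroup.subtype _ h) * x ∈ (affS F).subgroupOf (tame F) :=
        fun h => hSA x h.1 h.2
      refine lin_vert hU hT hp hpF hN hA hK α φ ψ htf hker (Subgroup.subtype _)
        (Subgroup.subtype_injective _) ((lin F).comp (cj α (affS F) (Subgroup.subtype _) x hx)) p hp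
        (fun h h1 => ?_) fun h h1 => ?_
      · exact (congrArg (lin F) (cj_of_eq α _ _ x hx h h1)).trans (map_one (lin F))
      · exact pow_of_cj α _ _ x hx h _ (aff_ker hpF _ h1)
    · obtain ⟨x, rfl⟩ := QuotientGroup.mk_surjective x
      obtain ⟨e1, e2⟩ := hdg (MulAction.stabilizer Γ (Sum.inr (x : tame F ⧸ tB F) :
        (tame F ⧸ tA F) ⊕ (tame F ⧸ tB F))).subtype x fun h => hSB x h.1 h.2
      refine lin_vert hU hT hp hpF hN hA hK α φ ψ htf hker (Subgroup.subtype _)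
        (Subgroup.subtype_injective _) ((diaG F).comp ((dg F).comp
          (cj α (triS F) (Subgroup.subtype _) x fun h => hSB x h.1 h.2))) (p * p)
        (Nat.mul_pos hp hp) (fun h h1 => ?_) fun h h1 => ?_
      · exact (congrArg (diaG F) (e1 h h1)).trans (map_one (diaG F))
      · exact e2 h (dia_inj F (h1.trans (map_one _).symm))

include hU hT hO hp hpF hN hA hK htf hker in
/-- Let `F` be a field and `A` a commutative ring of positive characteristic, `K` a field of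
characteristic `0` without new algebraic integers and without new points on rational conics, and
`(α, φ, ψ)` a homomorphism from `Γ` to the product of the group of tame automorphisms of the affine
plane over `F`, of `GL₂(A)` and of `GL₂(K)`, with torsionfree image. -/
theorem lin_gen : 𝒞 Γ := by
  refine hU Γ fun S => ⟨Subgroup.closure (S : Set Γ), fun s hs => Subgroup.subset_closure hs, ?_⟩
  exact lin_fg hU hT hO hp hpF hN hA hK (α.comp (Subgroup.subtype _))
    (φ.comp (Subgroup.subtype _)) (ψ.comp (Subgroup.subtype _))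
    (fun g n hn h1 h2 h3 => htf g.1 n hn h1 h2 h3) fun H _ f hf h =>
      hker H ((Subgroup.subtype _).comp f) (Subtype.val_injective.comp hf) h

end

end Pool.Agent.NegK.AP
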