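import Pool.Agent.Lib.MP_28303a_al.AP.Hom
import Pool.Agent.Lib.MP_28303a_al.NT.Main

/-! # Groups of automorphisms of the affine plane in positive characteristic -/

set_option autoImplicit false
set_option linter.unusedSectionVars false
set_option linter.unusedVariables false

namespace Pool.Agent.NegK.AP

universe u

open Pool.Agent.NegK.TW Pool.Agent.NegK.TT Pool.Agent.NegK.NT
open NT92 (TreesRC)
open NT5 (Kr)

/-- The theorem on one tree for the class `𝒞`. -/
def OneTree (𝒞 : (G : Type u) → [Group G] → Prop) : Prop :=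
  ∀ (Γ V : Type u) [Group Γ] [MulAction Γ V] (T : SimpleGraph V), TreeAct Γ T →
    (∀ v w, T.Adj v w →
      InRC (MulAction.stabilizer Γ v ⊓ MulAction.stabilizer Γ w : Subgroup Γ)) →
    (∀ v : V, 𝒞 (MulAction.stabilizer Γ v)) → 𝒞 Γ

theorem main_one {Γ V : Type u} [Group Γ] [MulAction Γ V] (T : SimpleGraph V) (hT : TreeAct Γ T)
    (hE : ∀ v w, T.Adj v w →
      InRC (MulAction.stabilizer Γ v ⊓ MulAction.stabilizer Γ w : Subgroup Γ)) :
    (∀ (R : Type u) [Ring R], RegularRing R → ⨆ v : V, img R (MulAction.stabilizer Γ v) = ⊤) ∧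
      ((∀ v : V, H19.InL (MulAction.stabilizer Γ v)) → H19.InL Γ) := by
  have h0 : LongRC Γ T := by
    refine ⟨0, fun l _ v hv _ => ?_⟩
    refine TT.H91.inRC_mono ?_ (hE (v 0) (v 1) (hv 0 (Nat.zero_le _)))
    refine le_inf ?_ ?_
    · exact iInf_le (fun j : Fin (l + 2) => MulAction.stabilizer Γ (v j)) ⟨0, by omega⟩
    · exact iInf_le (fun j : Fin (l + 2) => MulAction.stabilizer Γ (v j)) ⟨1, by omega⟩
  have h := (H19.main.{u}).1 Γ V T hT (fun v w h => inL_of_inRC _ (hE v w h)) (Or.inr h0)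
  exact ⟨fun R _ hR => h.1 R hR 0, h.2⟩

theorem oneTree_inL : OneTree.{u} fun G _ => H19.InL G :=
  fun Γ V _ _ T hT hE hV => (main_one T hT hE).2 hV

theorem oneTree_inK : OneTree.{u} fun G _ => InK G := by
  intro Γ V _ _ T hT hE hV R _ hR
  rw [← AddMonoidHom.range_eq_top, eq_top_iff, ← (main_one T hT hE).1 R hR]
  refine iSup_le fun v => ?_
  rintro _ ⟨y, rfl⟩
  obtain ⟨x, rfl⟩ := hV v R hR y
  exact ⟨x, by rw [k0_map_map, mdr_comp_cst]⟩

section

variable {𝒞 : (G : Type u) → [Group G] → Prop} (hU : H66.ClosedLoc 𝒞) (hT : TreesRC 𝒞)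
  {K : Type u} [Field K] {p : ℕ} (hp : 0 < p) (hpK : (p : K) = 0) {Γ : Type u} [Group Γ]
  (χ : Γ →* tame K) (htf : ∀ (g : Γ) (n : ℕ), 0 < n → χ g ^ n = 1 → χ g = 1)
  (hker : Kr 𝒞 Γ fun g => χ g = 1)

/-- Conjugation into a subgroup. -/
noncomputable def cj (S : Subgroup (Au K)) {H : Type u} [Group H] (f : H →* Γ) (x : tame K)
    (hx : ∀ h, x⁻¹ * χ (f h) * x ∈ S.subgroupOf (tame K)) : H →* S :=
  ((tame K).subtype.comp ((MulAut.conj x⁻¹).toMonoidHom.comp (χ.comp f))).codRestrict S fun h => by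
    have h1 := Subgroup.mem_subgroupOf.1 (hx h)
    simpa using h1

theorem cj_apply (S : Subgroup (Au K)) {H : Type u} [Group H] (f : H →* Γ) (x : tame K)
    (hx : ∀ h, x⁻¹ * χ (f h) * x ∈ S.subgroupOf (tame K)) (h : H) :
    (cj χ S f x hx h).1 = ((x⁻¹ * χ (f h) * x : tame K) : Au K) := by
  simp [cj]

include htf in
theorem eq_one_of_cj (S : Subgroup (Au K)) {H : Type u} [Group H] (f : H →* Γ) (x : tame K)
    (hx : ∀ h, x⁻¹ * χ (f h) * x ∈ S.subgroupOf (tame K)) (h : H) (n : ℕ) (hn : 0 < n)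
    (h1 : (cj χ S f x hx h).1 ^ n = 1) : χ (f h) = 1 ∧ cj χ S f x hx h = 1 := by
  rw [cj_apply] at h1
  have h2 : (x⁻¹ * χ (f h) * x) ^ n = 1 := by
    apply Subtype.ext
    rw [SubmonoidClass.coe_pow, h1]
    rfl
  have h3 : x⁻¹ * χ (f h) * x = MulAut.conj x⁻¹ (χ (f h)) := by simp
  rw [h3, ← map_pow, MulEquiv.map_eq_one_iff] at h2
  have h4 := htf _ n hn h2
  refine ⟨h4, Subtype.ext ?_⟩
  rw [cj_apply, h4]
  simp

include hU hT hp hpK htf hker in
/-- The affine vertices. -/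
theorem vertA {H : Type u} [Group H] (f : H →* Γ) (hf : Function.Injective f) (x : tame K)
    (hx : ∀ h, x⁻¹ * χ (f h) * x ∈ tA K) : 𝒞 H := by
  refine NT92.gl2_gen hU hT p hp.ne' K hpK H ((lin K).comp (cj χ (affS K) f x hx))
    (fun h n hn h1 => ?_) fun H' _ f' hf' h1 => ?_
  · rw [← map_pow] at h1
    have h2 := aff_ker hpK _ h1
    have h3 : (cj χ (affS K) f x hx h).1 ^ (n * p) = 1 := by
      rw [pow_mul]
      rw [map_pow] at h2
      exact h2
    rw [MonoidHom.comp_apply, (eq_one_of_cj χ htf _ f x hx h _ (Nat.mul_pos hn hp) h3).2, map_one]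
  · have h2 := hker H' (f.comp f') (hf.comp hf') fun h => by
      have h3 := aff_ker hpK _ (h1 h)
      exact (eq_one_of_cj χ htf _ f x hx (f' h) p hp h3).1
    exact ⟨inRC_of_inN h2.1, h2.2⟩

include hU hT hp hpK htf hker in
/-- The triangular vertices and the edges. -/
theorem vertB {H : Type u} [Group H] (f : H →* Γ) (hf : Function.Injective f) (x : tame K)
    (hx : ∀ h, x⁻¹ * χ (f h) * x ∈ tB K) : InRC H ∧ 𝒞 H := by
  let q : H →* (K × K)ˣ := (dg K).comp (cj χ (triS K) f x hx)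
  have hq : ∀ h n, 0 < n → q h ^ n = 1 → χ (f h) = 1 ∧ q h = 1 := by
    intro h n hn h1
    rw [← map_pow] at h1
    have h2 := tri_ker hpK _ h1
    have h3 : (cj χ (triS K) f x hx h).1 ^ (n * (p * p)) = 1 := by
      rw [pow_mul]
      rw [map_pow] at h2
      exact h2
    have h4 := eq_one_of_cj χ htf _ f x hx h _ (Nat.mul_pos hn (Nat.mul_pos hp hp)) h3
    exact ⟨h4.1, by rw [MonoidHom.comp_apply, h4.2, map_one]⟩
  refine NT5.comm_ext hU hT H q.range q.rangeRestrict (fun a b => Subtype.ext (mul_comm _ _))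
    ?_ fun H' _ f' hf' h1 => hker H' (f.comp f') (hf.comp hf') fun h => ?_
  · rintro ⟨_, ⟨h, rfl⟩⟩ n hn h1
    exact Subtype.ext (hq h n hn (congrArg Subtype.val h1)).2
  · exact (hq (f' h) 1 one_pos (by rw [pow_one]; exact congrArg Subtype.val (h1 h))).1

include hU hT hp hpK htf hker in
/-- Groups with a homomorphism to the group of tame automorphisms of the affine plane over a field
of positive characteristic with torsionfree image. -/
theorem plane (hO : OneTree 𝒞) : 𝒞 Γ := by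
  let _ : MulAction Γ ((tame K ⧸ tA K) ⊕ (tame K ⧸ tB K)) := MulAction.compHom _ χ
  have hsl : ∀ (g : Γ) (x : tame K),
      g • (Sum.inl (x : tame K ⧸ tA K) : (tame K ⧸ tA K) ⊕ (tame K ⧸ tB K)) =
        Sum.inl ((χ g * x : tame K) : tame K ⧸ tA K) := fun g x => rfl
  have hsr : ∀ (g : Γ) (x : tame K),
      g • (Sum.inr (x : tame K ⧸ tB K) : (tame K ⧸ tA K) ⊕ (tame K ⧸ tB K)) =
        Sum.inr ((χ g * x : tame K) : tame K ⧸ tB K) := fun g x => rfl
  have hconj : ∀ (g x : tame K), x⁻¹ * g * x = ((g * x)⁻¹ * x)⁻¹ := fun g x => by group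
  have hA : ∀ (x : tame K) (g : Γ), g ∈ MulAction.stabilizer Γ
      (Sum.inl (x : tame K ⧸ tA K) : (tame K ⧸ tA K) ⊕ (tame K ⧸ tB K)) →
      x⁻¹ * χ g * x ∈ tA K := fun x g hg => by
    have h1 := QuotientGroup.eq.1 (Sum.inl_injective ((hsl g x).symm.trans hg))
    rw [hconj]
    exact inv_mem h1
  have hB : ∀ (x : tame K) (g : Γ), g ∈ MulAction.stabilizer Γ
      (Sum.inr (x : tame K ⧸ tB K) : (tame K ⧸ tA K) ⊕ (tame K ⧸ tB K)) →
      x⁻¹ * χ g * x ∈ tB K := fun x g hg => by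
    have h1 := QuotientGroup.eq.1 (Sum.inr_injective ((hsr g x).symm.trans hg))
    rw [hconj]
    exact inv_mem h1
  have htree : TreeAct Γ (cosetGraph (tA K) (tB K)) := by
    refine ⟨tree, ?_, ?_⟩
    · rintro g v w ⟨x, h⟩
      refine ⟨χ g * x, ?_⟩
      rcases h with ⟨rfl, rfl⟩ | ⟨rfl, rfl⟩
      · exact Or.inl ⟨hsl g x, hsr g x⟩
      · exact Or.inr ⟨hsr g x, hsl g x⟩
    · rintro g v w ⟨x, h⟩ ⟨h1, _⟩
      rcases h with ⟨rfl, rfl⟩ | ⟨rfl, rfl⟩
      · exact Sum.inl_ne_inr ((hsl g x).symm.trans h1)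
      · exact Sum.inr_ne_inl ((hsr g x).symm.trans h1)
  refine hO Γ _ (cosetGraph (tA K) (tB K)) htree ?_ ?_
  · rintro v w ⟨x, h⟩
    rcases h with ⟨rfl, rfl⟩ | ⟨rfl, rfl⟩
    · exact (vertB hU hT hp hpK χ htf hker (Subgroup.subtype _) (Subgroup.subtype_injective _) x
        fun h => hB x h.1 (Subgroup.mem_inf.1 h.2).2).1
    · exact (vertB hU hT hp hpK χ htf hker (Subgroup.subtype _) (Subgroup.subtype_injective _) x
        fun h => hB x h.1 (Subgroup.mem_inf.1 h.2).1).1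
  · rintro (q | q)
    · obtain ⟨x, rfl⟩ := QuotientGroup.mk_surjective q
      exact vertA hU hT hp hpK χ htf hker (Subgroup.subtype _) (Subgroup.subtype_injective _) x
        fun h => hA x h.1 h.2
    · obtain ⟨x, rfl⟩ := QuotientGroup.mk_surjective q
      exact (vertB hU hT hp hpK χ htf hker (Subgroup.subtype _) (Subgroup.subtype_injective _) x
        fun h => hB x h.1 h.2).2

end

/-- Torsionfree groups of tame automorphisms of the affine plane over a field of positive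
characteristic: `K₀`. -/
theorem plane_inK (K : Type u) [Field K] (p : ℕ) (hp : 0 < p) (hpK : (p : K) = 0) (Γ : Type u)
    [Group Γ] (htf : TorsionFree Γ) (χ : Γ →* tame K) (hχ : Function.Injective χ) : InK Γ := by
  have h1 : ∀ g, χ g = 1 → g = 1 := fun g h => hχ (h.trans (map_one χ).symm)
  refine plane (𝒞 := fun G _ => InK G) (fun G _ h => inK_loc G h) (fun Γ _ Y h h' => trees_inK Y h h')
    hp hpK χ (fun g n hn h => ?_) (fun H _ f hf h => ?_) oneTree_inK
  · rw [← map_pow] at h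
    rw [htf g n hn (h1 _ h), map_one]
  · have h2 : ∀ x : H, x = 1 := fun x => hf ((h1 _ (h x)).trans (map_one f).symm)
    exact ⟨inN_of_subsingleton H h2, inK_of_subsingleton H h2⟩

/-- Groups with a homomorphism to the tame automorphisms with torsionfree image and kernel in
`𝒩`. -/
theorem plane_inL (K : Type u) [Field K] (p : ℕ) (hp : 0 < p) (hpK : (p : K) = 0) (Γ : Type u)
    [Group Γ] (χ : Γ →* tame K) (htf : TorsionFree χ.range) (hker : InN χ.ker) : H19.InL Γ := by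
  refine plane (𝒞 := fun G _ => H19.InL G) (fun G _ h => ((TT.main.{u}).2.2.2.1 G).2.2.2.2.1 h)
    (fun Γ _ Y h _ => trees_inL Y h) hp hpK χ (fun g n hn h => ?_) (fun H _ f hf h => ?_)
    oneTree_inL
  · have h3 : (⟨χ g, g, rfl⟩ : χ.range) = 1 := htf _ n hn (Subtype.ext h)
    exact congrArg Subtype.val h3
  · have h1 : InN H := TT.H66.inN_of_injective (f.codRestrict χ.ker h)
      (fun a b hab => hf (congrArg Subtype.val hab)) hker
    exact ⟨h1, inL_of_inRC _ (inRC_of_inN h1)⟩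

end Pool.Agent.NegK.AP
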