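import Pool.Agent.Lib.MP_28303a_al.AP.Fin
import Pool.Agent.Lib.MP_28303a_al.NT.H70.Rig

/-! # The clause on groups of matrices and of automorphisms of the affine plane -/

set_option autoImplicit false

namespace Pool.Agent.NegK.AP.Stmt2

open Pool.Agent.NegK

universe u

/-- The class `𝒩`: for every regular ring `R` the group ring `R[G]` is a regular ring. -/
def ClassN (G : Type u) [Group G] : Prop :=
  ∀ (R : Type u) [Ring R], RegularRing R → RegularRing (MonoidAlgebra R G)

/-- The negative K-groups of `R[Γ]` vanish for all regular rings `R`. -/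
def NegativeVanish (Γ : Type u) [Group Γ] : Prop :=
  ∀ (R : Type u) [Ring R], RegularRing R → ∀ n : ℕ, Subsingleton (KNeg (n + 1) (MonoidAlgebra R Γ))

/-- Every conic over `ℚ` with a point over `K` has a point over `ℚ`. -/
def Conics (K : Type u) [Field K] : Prop :=
  ∀ a b c d e f : ℚ,
    (∃ x y z : K, (x ≠ 0 ∨ y ≠ 0 ∨ z ≠ 0) ∧ (a : K) * x ^ 2 + b * y ^ 2 + c * z ^ 2 +
      d * (x * y) + e * (x * z) + f * (y * z) = 0) →
    ∃ x y z : ℚ, (x ≠ 0 ∨ y ≠ 0 ∨ z ≠ 0) ∧ a * x ^ 2 + b * y ^ 2 + c * z ^ 2 +
      d * (x * y) + e * (x * z) + f * (y * z) = 0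

/-- The fields `K` of characteristic `0` whose algebraic integers are the integers, such that every
conic over `ℚ` with a point over `K` has a point over `ℚ`. -/
structure Rig (K : Type u) [Field K] : Prop where
  char : CharZero K
  int : ∀ a : K, IsIntegral ℤ a → ∃ z : ℤ, a = z
  conics : Conics K

open MvPolynomial in
/-- The group of the tame automorphisms of the polynomial ring `F[x, y]`, `x = X 0`, `y = X 1`: it is
generated by the affine automorphisms and the automorphisms `x ↦ x + P(y)`, `y ↦ y`.  (By Jung and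
van der Kulk all automorphisms are tame.) -/
noncomputable def Tame (F : Type u) [Field F] :
    Subgroup (MvPolynomial (Fin 2) F ≃ₐ[F] MvPolynomial (Fin 2) F) :=
  Subgroup.closure {φ | (∀ i, (φ (X i)).totalDegree ≤ 1 ∧ (φ⁻¹ (X i)).totalDegree ≤ 1) ∨
    (φ (X 1) = X 1 ∧ ∃ P : Polynomial F, φ (X 0) = X 0 + Polynomial.aeval (X 1) P)}

/-- Let `F` be a field and `A` a commutative ring, both of positive characteristic, `b` a block
structure with blocks of size at most two and `K` a field as above, for example a field of rational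
functions over `ℚ`.  Let `Γ` be a group with a homomorphism `χ` to `Tame(F) × GLₙ(A) × GL₂(K)` with
torsionfree image and kernel in `𝒩` such that the component in `GLₙ(A)` is block triangular.  Then
the negative K-groups of `R[Γ]` vanish for all regular rings `R`, and `K₀(R) → K₀(R[Γ])` is bijective
if `χ` is injective. -/
def LinearPositive : Prop :=
  (∀ (F : Type u) [Field F] (A : Type u) [CommRing A] (N : ℕ), 0 < N → (N : F) = 0 →
    (N : A) = 0 → ∀ (n : ℕ) (b : Fin n → ℕ),
    (∀ k, (Finset.univ.filter fun i => b i = k).card ≤ 2) →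
    ∀ (K : Type u) [Field K], Rig K → ∀ (Γ : Type u) [Group Γ]
      (χ : Γ →* Tame F × GL (Fin n) A × GL (Fin 2) K),
      (∀ g, ((χ g).2.1 : Matrix (Fin n) (Fin n) A).BlockTriangular b) →
      TorsionFree χ.range → ClassN χ.ker →
    NegativeVanish Γ ∧ (Function.Injective χ → ∀ (R : Type u) [Ring R], RegularRing R →
      Function.Bijective
        (K0.map (MonoidAlgebra.singleOneRingHom : R →+* MonoidAlgebra R Γ)))) ∧
  ∀ σ : Type u, Rig (FractionRing (MvPolynomial σ ℤ))

theorem linearPositive (hRel : NT.ER.RelStatement.{u}) : LinearPositive.{u} := by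
  refine ⟨?_, ?_⟩
  · intro F _ A _ N hN hF hA n b hb K _ hK Γ _ χ htri htf hker
    have hK' : NT.H70.Rig K := ⟨hK.char, hK.int, hK.conics⟩
    exact ⟨NT.vanish (lin_inL hN hF hA b hb hK' χ htri htf hRel hker), fun hχ R _ hR =>
      NT.inK_bij (lin_inK hN hF hA b hb hK' χ htri htf hRel hχ) R hR⟩
  · intro σ
    have h := NT.H70.rig_ratFunc σ (FractionRing (MvPolynomial σ ℤ))
    exact ⟨h.char, h.int, h.conics⟩

end Pool.Agent.NegK.AP.Stmt2
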