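import Pool.Agent.Lib.MP_28303a_al.AP.Aut
import Pool.Agent.Lib.MP_28303a_al.AP.CosetTree

/-! # Affine and triangular automorphisms -/

set_option autoImplicit false

namespace Pool.Agent.NegK.AP

universe u

open MvPolynomial

/-- Affine automorphisms: `φ` and its inverse have degree one. -/
def IsAff {K : Type u} [Field K] (φ : Au K) : Prop :=
  ∀ i, (φ (X i)).totalDegree ≤ 1 ∧ (φ⁻¹ (X i)).totalDegree ≤ 1

/-- Elementary automorphisms: `(x, y) ↦ (x + p(y), y)`. -/
def IsElem {K : Type u} [Field K] (φ : Au K) : Prop :=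
  φ (X 1) = X 1 ∧ ∃ P : Polynomial K, φ (X 0) = X 0 + Polynomial.aeval (X 1) P

/-- The group of tame automorphisms. -/
noncomputable def tame (K : Type u) [Field K] : Subgroup (Au K) :=
  Subgroup.closure {φ | IsAff φ ∨ IsElem φ}

/-- Triangular automorphisms `(x, y) ↦ (a x + P(y), c y + d)`. -/
def Tri {K : Type u} [Field K] (φ : Au K) (a c d : K) (P : Polynomial K) : Prop :=
  φ (X 0) = C a * X 0 + Polynomial.aeval (X 1) P ∧ φ (X 1) = C c * X 1 + C d

variable {K : Type u} [Field K]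

theorem aff_mul_aux {φ ψ : Au K} (h : ∀ i, (φ (X i)).totalDegree ≤ 1)
    (h' : ∀ i, (ψ (X i)).totalDegree ≤ 1) (i : Fin 2) : ((φ * ψ) (X i)).totalDegree ≤ 1 := by
  rw [AlgEquiv.mul_apply, exists_lin (h' i), au_lin]
  exact le_trans (deg_comb_le _ _ _ _ _) (max_le (h 0) (h 1))

/-- The group of affine automorphisms. -/
noncomputable def affS (K : Type u) [Field K] : Subgroup (Au K) where
  carrier := {φ | IsAff φ}
  one_mem' := fun i => by
    rw [inv_one]
    show (X i : MvPolynomial (Fin 2) K).totalDegree ≤ 1 ∧ (X i).totalDegree ≤ 1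
    rw [totalDegree_X]
    exact ⟨le_rfl, le_rfl⟩
  mul_mem' := fun {φ ψ} h h' i => ⟨aff_mul_aux (fun i => (h i).1) (fun i => (h' i).1) i, by
    rw [mul_inv_rev]
    exact aff_mul_aux (fun i => (h' i).2) (fun i => (h i).2) i⟩
  inv_mem' := fun {φ} h i => ⟨(h i).2, by
    rw [inv_inv]
    exact (h i).1⟩

theorem tri_mul {φ ψ : Au K} {a c d : K} {P : Polynomial K} {a' c' d' : K} {P' : Polynomial K}
    (h : Tri φ a c d P) (h' : Tri ψ a' c' d' P') :
    Tri (φ * ψ) (a' * a) (c' * c) (c' * d + d')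
      (Polynomial.C a' * P + P'.comp (Polynomial.C c * Polynomial.X + Polynomial.C d)) := by
  constructor
  · have e : Polynomial.aeval (X 1 : MvPolynomial (Fin 2) K) (Polynomial.C a' * P +
        P'.comp (Polynomial.C c * Polynomial.X + Polynomial.C d)) =
        C a' * Polynomial.aeval (X 1) P + Polynomial.aeval (C c * X 1 + C d) P' := by
      simp only [map_add, map_mul, Polynomial.aeval_comp, Polynomial.aeval_C, Polynomial.aeval_X,
        algebraMap_eq]
    rw [e, AlgEquiv.mul_apply, h'.1, map_add, map_mul, au_C, au_aeval, h.1, h.2, C_mul]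
    ring
  · rw [AlgEquiv.mul_apply, h'.2, map_add, map_mul, au_C, au_C, h.2, C_add, C_mul, C_mul]
    ring

theorem tri_coeff {φ : Au K} {a c d : K} {P : Polynomial K} (h : Tri φ a c d P) :
    coeff (Finsupp.single 0 1) (φ (X 0)) = a ∧ coeff (Finsupp.single 1 1) (φ (X 1)) = c := by
  constructor
  · rw [h.1, coeff_add, coeff_aeval_X, add_zero]
    have := (coeff_lin a 0 0).1
    simpa using this
  · rw [h.2]
    have := (coeff_lin 0 c d).2.1
    simpa using this

theorem tri_inv {φ : Au K} {a c d : K} {P : Polynomial K} (ha : a ≠ 0) (hc : c ≠ 0)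
    (h : Tri φ a c d P) :
    Tri φ⁻¹ a⁻¹ c⁻¹ (-(c⁻¹ * d)) (-(Polynomial.C a⁻¹ *
      P.comp (Polynomial.C c⁻¹ * Polynomial.X + Polynomial.C (-(c⁻¹ * d))))) := by
  have hcc : (C c⁻¹ : MvPolynomial (Fin 2) K) * C c = 1 := by
    rw [← C_mul, inv_mul_cancel₀ hc, C_1]
  have haa : (C a⁻¹ : MvPolynomial (Fin 2) K) * C a = 1 := by
    rw [← C_mul, inv_mul_cancel₀ ha, C_1]
  have h1 : φ (C c⁻¹ * X 1 + C (-(c⁻¹ * d))) = X 1 := by
    rw [map_add, map_mul, au_C, au_C, h.2, C_neg, C_mul]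
    linear_combination (X 1) * hcc
  have h2 : φ (C a⁻¹ * X 0 + Polynomial.aeval (X 1) (-(Polynomial.C a⁻¹ *
      P.comp (Polynomial.C c⁻¹ * Polynomial.X + Polynomial.C (-(c⁻¹ * d)))))) = X 0 := by
    have h3 : Polynomial.aeval (X 1 : MvPolynomial (Fin 2) K) (-(Polynomial.C a⁻¹ *
        P.comp (Polynomial.C c⁻¹ * Polynomial.X + Polynomial.C (-(c⁻¹ * d))))) =
        -(C a⁻¹ * Polynomial.aeval (C c⁻¹ * X 1 + C (-(c⁻¹ * d))) P) := by
      rw [map_neg, map_mul, Polynomial.aeval_comp, map_add, map_mul, Polynomial.aeval_C,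
        Polynomial.aeval_C, Polynomial.aeval_C, Polynomial.aeval_X]
      rfl
    rw [h3, map_add, map_neg, map_mul, map_mul, au_C, au_aeval, h1, h.1]
    linear_combination (X 0) * haa
  constructor
  · apply φ.injective
    rw [h2]
    exact φ.apply_symm_apply _
  · apply φ.injective
    rw [h1]
    exact φ.apply_symm_apply _

/-- The group of triangular automorphisms. -/
noncomputable def triS (K : Type u) [Field K] : Subgroup (Au K) where
  carrier := {φ | ∃ (a c d : K) (P : Polynomial K), a ≠ 0 ∧ c ≠ 0 ∧ Tri φ a c d P}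
  one_mem' := ⟨1, 1, 0, 0, one_ne_zero, one_ne_zero, by simp [Tri]⟩
  mul_mem' := by
    rintro φ ψ ⟨a, c, d, P, ha, hc, h⟩ ⟨a', c', d', P', ha', hc', h'⟩
    exact ⟨_, _, _, _, mul_ne_zero ha' ha, mul_ne_zero hc' hc, tri_mul h h'⟩
  inv_mem' := by
    rintro φ ⟨a, c, d, P, ha, hc, h⟩
    exact ⟨_, _, _, _, inv_ne_zero ha, inv_ne_zero hc, tri_inv ha hc h⟩

/-! ## Heights -/

/-- The degree of an automorphism. -/
noncomputable def dA (φ : Au K) : ℕ := max (φ (X 0)).totalDegree (φ (X 1)).totalDegree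

/-- The degree of the second component. -/
noncomputable def dB (φ : Au K) : ℕ := (φ (X 1)).totalDegree

theorem dA_le (φ : Au K) {ψ : Au K} (h : ψ ∈ affS K) : dA (φ * ψ) ≤ dA φ := by
  have key : ∀ i, ((φ * ψ) (X i)).totalDegree ≤ dA φ := fun i => by
    rw [AlgEquiv.mul_apply, exists_lin (h i).1, au_lin]
    exact deg_comb_le _ _ _ _ _
  exact max_le (key 0) (key 1)

theorem dA_mul (φ : Au K) {ψ : Au K} (h : ψ ∈ affS K) : dA (φ * ψ) = dA φ := by
  refine le_antisymm (dA_le φ h) ?_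
  have h1 := dA_le (φ * ψ) ((affS K).inv_mem h)
  rwa [mul_inv_cancel_right] at h1

theorem dB_le (φ : Au K) {ψ : Au K} (h : ψ ∈ triS K) : dB (φ * ψ) ≤ dB φ := by
  obtain ⟨a, c, d, P, ha, hc, h⟩ := h
  have h1 := deg_comb_le 0 c d (φ (X 0)) (φ (X 1))
  rw [dB, dB, AlgEquiv.mul_apply, h.2, map_add, map_mul, au_C, au_C]
  refine le_trans (totalDegree_add _ _) (max_le ?_ ?_)
  · rw [deg_C_mul hc]
  · rw [totalDegree_C]
    exact Nat.zero_le _

theorem dB_mul (φ : Au K) {ψ : Au K} (h : ψ ∈ triS K) : dB (φ * ψ) = dB φ := by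
  refine le_antisymm (dB_le φ h) ?_
  have h1 := dB_le (φ * ψ) ((triS K).inv_mem h)
  rwa [mul_inv_cancel_right] at h1

theorem height1 (φ : Au K) {ψ : Au K} (h : ψ ∈ affS K) (h1 : dB φ < dA φ)
    (h2 : dB (φ * ψ) < dA φ) : ψ ∈ triS K := by
  have h3 : (φ (X 1)).totalDegree < (φ (X 0)).totalDegree := by
    rcases lt_max_iff.1 h1 with h3 | h3
    · exact h3
    · exact absurd h3 (lt_irrefl _)
  have h4 : dA φ = (φ (X 0)).totalDegree := max_eq_left h3.le
  have e0 := exists_lin (h 0).1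
  have e1 := exists_lin (h 1).1
  set α := coeff (Finsupp.single 0 1) (ψ (X 0))
  set β := coeff (Finsupp.single 1 1) (ψ (X 0))
  set γ := coeff 0 (ψ (X 0))
  set α' := coeff (Finsupp.single 0 1) (ψ (X 1))
  set β' := coeff (Finsupp.single 1 1) (ψ (X 1))
  set γ' := coeff 0 (ψ (X 1))
  have hα' : α' = 0 := by
    by_contra hne
    rw [dB, AlgEquiv.mul_apply, e1, au_lin, deg_comb_eq hne _ _ h3, h4] at h2
    exact lt_irrefl _ h2
  rw [hα', C_0, zero_mul, zero_add] at e1
  have hβ' : β' ≠ 0 := by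
    intro h0
    rw [h0, C_0, zero_mul, zero_add] at e1
    have h5 := one_le_deg ψ 1
    rw [e1, totalDegree_C] at h5
    omega
  have hα : α ≠ 0 := by
    intro h0
    rw [h0, C_0, zero_mul, zero_add] at e0
    have h5 : ψ (C β' * X 0 + C (-β) * X 1 + C (β * γ' - β' * γ)) = 0 := by
      rw [au_lin, e0, e1, C_neg, C_sub, C_mul, C_mul]
      ring
    have h6 := ψ.injective (h5.trans (map_zero ψ).symm)
    have h7 := (coeff_lin β' (-β) (β * γ' - β' * γ)).1
    rw [h6, coeff_zero] at h7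
    exact hβ' h7.symm
  refine ⟨α, β', γ', Polynomial.C β * Polynomial.X + Polynomial.C γ, hα, hβ', ?_, e1⟩
  rw [e0, map_add, map_mul, Polynomial.aeval_C, Polynomial.aeval_C, Polynomial.aeval_X, add_assoc]
  rfl

theorem height2_aux (φ : Au K) {ψ : Au K} (h : ψ ∈ triS K) (h1 : dA φ ≤ dB φ)
    (h2 : dA (φ * ψ) ≤ dB φ) (i : Fin 2) : (ψ (X i)).totalDegree ≤ 1 := by
  obtain ⟨a, c, d, P, ha, hc, h⟩ := h
  have hb : 1 ≤ dB φ := one_le_deg φ 1
  have hP : P.natDegree ≤ 1 := by
    have h3 : ((φ * ψ) (X 0)).totalDegree ≤ dB φ := le_trans (le_max_left _ _) h2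
    have h4 : (φ (X 0)).totalDegree ≤ dB φ := le_trans (le_max_left _ _) h1
    rw [AlgEquiv.mul_apply, h.1, map_add, map_mul, au_C, au_aeval] at h3
    have h5 : (Polynomial.aeval (φ (X 1)) P).totalDegree ≤ dB φ := by
      have h6 : Polynomial.aeval (φ (X 1)) P =
          (C a * φ (X 0) + Polynomial.aeval (φ (X 1)) P) - C a * φ (X 0) := by ring
      rw [h6]
      refine le_trans (totalDegree_sub _ _) (max_le h3 ?_)
      rw [deg_C_mul ha]
      exact h4
    rw [deg_aeval _ (one_le_deg φ 1)] at h5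
    by_contra hcon
    have h7 : 2 * dB φ ≤ P.natDegree * dB φ := Nat.mul_le_mul_right _ (by omega)
    have h8 : P.natDegree * dB φ ≤ dB φ := h5
    omega
  fin_cases i
  · show (ψ (X 0)).totalDegree ≤ 1
    rw [h.1]
    refine le_trans (totalDegree_add _ _) (max_le ?_ ?_)
    · rw [deg_C_mul ha, totalDegree_X]
    · refine le_trans (deg_aeval_le _ _) ?_
      rw [totalDegree_X, mul_one]
      exact hP
  · show (ψ (X 1)).totalDegree ≤ 1
    rw [h.2]
    refine le_trans (totalDegree_add _ _) (max_le ?_ ?_)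
    · rw [deg_C_mul hc, totalDegree_X]
    · rw [totalDegree_C]
      exact Nat.zero_le _

theorem height2 (φ : Au K) {ψ : Au K} (h : ψ ∈ triS K) (h1 : dA φ ≤ dB φ)
    (h2 : dA (φ * ψ) ≤ dB φ) : ψ ∈ affS K := fun i =>
  ⟨height2_aux φ h h1 h2 i, height2_aux (φ * ψ) ((triS K).inv_mem h)
    (by rw [dB_mul φ h]; exact h2) (by rw [mul_inv_cancel_right, dB_mul φ h]; exact h1) i⟩

/-! ## The tree -/

/-- The affine automorphisms in the tame group. -/
noncomputable abbrev tA (K : Type u) [Field K] : Subgroup (tame K) := (affS K).subgroupOf (tame K)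

/-- The triangular automorphisms in the tame group. -/
noncomputable abbrev tB (K : Type u) [Field K] : Subgroup (tame K) := (triS K).subgroupOf (tame K)

theorem elem_mem {φ : Au K} (h : IsElem φ) : φ ∈ triS K := by
  obtain ⟨h1, P, h0⟩ := h
  exact ⟨1, 1, 0, P, one_ne_zero, one_ne_zero, by rw [h0, C_1, one_mul],
    by rw [h1, C_1, C_0, one_mul, add_zero]⟩

theorem tame_gen : Subgroup.closure ((tA K : Set (tame K)) ∪ tB K) = ⊤ := by
  have h : (⊤ : Subgroup (tame K)) =
      Subgroup.closure (((↑) : tame K → Au K) ⁻¹' {φ : Au K | IsAff φ ∨ IsElem φ}) :=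
    (Subgroup.closure_closure_coe_preimage (k := {φ : Au K | IsAff φ ∨ IsElem φ})).symm
  rw [eq_top_iff, h]
  refine Subgroup.closure_mono ?_
  rintro x (hx | hx)
  · exact Or.inl (Subgroup.mem_subgroupOf.2 hx)
  · exact Or.inr (Subgroup.mem_subgroupOf.2 (elem_mem hx))

/-- The tree. -/
theorem tree : (cosetGraph (tA K) (tB K)).IsTree :=
  ⟨cosetGraph_connected tame_gen, cosetGraph_acyclic (fun g => dA g.1) (fun g => dB g.1)
    (fun g _ hx => dA_mul g.1 (Subgroup.mem_subgroupOf.1 hx))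
    (fun g _ hx => dB_mul g.1 (Subgroup.mem_subgroupOf.1 hx))
    (fun g _ hx h1 h2 => Subgroup.mem_subgroupOf.2
      (height1 g.1 (Subgroup.mem_subgroupOf.1 hx) h1 h2))
    fun g _ hx h1 h2 => Subgroup.mem_subgroupOf.2
      (height2 g.1 (Subgroup.mem_subgroupOf.1 hx) h1 h2)⟩

end Pool.Agent.NegK.AP
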